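import Mathlib

/-!
# The involutive automorphisms of the unit ball of a complex inner product space
-/

set_option autoImplicit false
set_option linter.unusedSectionVars false
open Metric Set

namespace Pool.Agent.U542.CH

variable {E : Type*} [NormedAddCommGroup E] [InnerProductSpace ℂ E]

/-- `√(1 - ‖a‖²)` -/
noncomputable def sa (a : E) : ℝ := Real.sqrt (1 - ‖a‖ ^ 2)

/-- the involution of the ball exchanging `0` and `a` -/
noncomputable def phi (a z : E) : E :=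
  (1 - inner ℂ a z)⁻¹ • ((1 - inner ℂ a z / (1 + (sa a : ℂ))) • a - (sa a : ℂ) • z)

theorem sa_sq {a : E} (ha : ‖a‖ < 1) : sa a ^ 2 = 1 - ‖a‖ ^ 2 := by
  unfold sa
  rw [Real.sq_sqrt]
  have := norm_nonneg a
  nlinarith

theorem sa_pos {a : E} (ha : ‖a‖ < 1) : 0 < sa a := by
  unfold sa
  apply Real.sqrt_pos.2
  have := norm_nonneg a
  nlinarith

theorem inner_lt_one {a z : E} (ha : ‖a‖ ≤ 1) (hz : ‖z‖ < 1) : ‖inner ℂ a z‖ < 1 := by
  have h1 := norm_inner_le_norm (𝕜 := ℂ) a z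
  have h2 : ‖a‖ * ‖z‖ ≤ 1 * ‖z‖ := mul_le_mul_of_nonneg_right ha (norm_nonneg z)
  linarith

theorem one_sub_inner_ne {a z : E} (ha : ‖a‖ ≤ 1) (hz : ‖z‖ < 1) :
    (1 : ℂ) - inner ℂ a z ≠ 0 := by
  intro h
  have h1 : inner ℂ a z = (1 : ℂ) := (sub_eq_zero.1 h).symm
  have := inner_lt_one ha hz
  rw [h1] at this
  simp at this

/-- the norm of the numerator -/
theorem num_norm {a z : E} (ha : ‖a‖ < 1) :
    ‖(1 - inner ℂ a z / (1 + (sa a : ℂ))) • a - (sa a : ℂ) • z‖ ^ 2 =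
      ‖(1 : ℂ) - inner ℂ a z‖ ^ 2 - (1 - ‖a‖ ^ 2) * (1 - ‖z‖ ^ 2) := by
  have hs := sa_sq ha
  have hs0 := sa_pos ha
  set s := sa a with hsdef
  set c : ℂ := inner ℂ a z with hc
  have h1 : ‖(1 - c / (1 + (s : ℂ))) • a - (s : ℂ) • z‖ ^ 2 =
      ‖1 - c / (1 + (s : ℂ))‖ ^ 2 * ‖a‖ ^ 2
        - 2 * (s * (c.re - (c.re ^ 2 + c.im ^ 2) / (1 + s))) + s ^ 2 * ‖z‖ ^ 2 := by
    rw [norm_sub_sq (𝕜 := ℂ), norm_smul, norm_smul, inner_smul_left, inner_smul_right, ← hc,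
      mul_pow, mul_pow]
    have h2 : ‖(s : ℂ)‖ ^ 2 = s ^ 2 := by
      rw [Complex.norm_real, Real.norm_eq_abs, sq_abs]
    rw [h2]
    have h3 : RCLike.re ((starRingEnd ℂ) (1 - c / (1 + (s : ℂ))) * ((s : ℂ) * c)) =
        s * (c.re - (c.re ^ 2 + c.im ^ 2) / (1 + s)) := by
      have h4 : (1 + (s : ℂ)) = ((1 + s : ℝ) : ℂ) := by push_cast; ring
      rw [h4]
      simp only [RCLike.re_eq_complex_re, Complex.mul_re, Complex.conj_re, Complex.conj_im,
        Complex.sub_re, Complex.sub_im, Complex.one_re, Complex.one_im, Complex.div_ofReal_re,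
        Complex.div_ofReal_im, Complex.ofReal_re, Complex.ofReal_im, Complex.mul_im]
      field_simp
      ring
    rw [h3]
  rw [h1]
  have h5 : ‖1 - c / (1 + (s : ℂ))‖ ^ 2 = (1 - c.re / (1 + s)) ^ 2 + (c.im / (1 + s)) ^ 2 := by
    have h4 : (1 + (s : ℂ)) = ((1 + s : ℝ) : ℂ) := by push_cast; ring
    rw [h4, ← Complex.normSq_eq_norm_sq, Complex.normSq_apply]
    simp only [Complex.sub_re, Complex.sub_im, Complex.one_re, Complex.one_im,
      Complex.div_ofReal_re, Complex.div_ofReal_im]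
    ring
  have h6 : ‖(1 : ℂ) - c‖ ^ 2 = (1 - c.re) ^ 2 + c.im ^ 2 := by
    rw [← Complex.normSq_eq_norm_sq, Complex.normSq_apply]
    simp only [Complex.sub_re, Complex.sub_im, Complex.one_re, Complex.one_im]
    ring
  rw [h5, h6]
  have h7 : ‖a‖ ^ 2 = 1 - s ^ 2 := by linarith
  rw [h7]
  have h8 : (1 + s) ≠ 0 := by positivity
  field_simp
  ring

theorem one_sub_phi {a z : E} (ha : ‖a‖ < 1) (hz : ‖z‖ < 1) :
    1 - ‖phi a z‖ ^ 2 = (1 - ‖a‖ ^ 2) * (1 - ‖z‖ ^ 2) / ‖(1 : ℂ) - inner ℂ a z‖ ^ 2 := by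
  have hne : ‖(1 : ℂ) - inner ℂ a z‖ ≠ 0 := norm_ne_zero_iff.2 (one_sub_inner_ne ha.le hz)
  unfold phi
  rw [norm_smul, mul_pow, num_norm ha, norm_inv]
  field_simp
  ring

theorem phi_lt {a z : E} (ha : ‖a‖ < 1) (hz : ‖z‖ < 1) : ‖phi a z‖ < 1 := by
  have h1 := one_sub_phi ha hz
  have hne : 0 < ‖(1 : ℂ) - inner ℂ a z‖ := norm_pos_iff.2 (one_sub_inner_ne ha.le hz)
  have h2 : 0 < 1 - ‖a‖ ^ 2 := by have := norm_nonneg a; nlinarith
  have h3 : 0 < 1 - ‖z‖ ^ 2 := by have := norm_nonneg z; nlinarith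
  have h4 : 0 < 1 - ‖phi a z‖ ^ 2 := by rw [h1]; positivity
  have := norm_nonneg (phi a z)
  nlinarith

theorem phi_zero {a : E} : phi a 0 = a := by
  simp [phi]

theorem inner_phi {a z : E} (ha : ‖a‖ < 1) (hz : ‖z‖ < 1) :
    inner ℂ a (phi a z) = (1 - (sa a : ℂ) ^ 2 - inner ℂ a z) / (1 - inner ℂ a z) := by
  have hne := one_sub_inner_ne ha.le hz
  have hs := sa_sq ha
  have hs0 := sa_pos ha
  unfold phi
  rw [inner_smul_right, inner_sub_right, inner_smul_right, inner_smul_right,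
    inner_self_eq_norm_sq_to_K]
  have h1 : ((‖a‖ : ℝ) : ℂ) ^ 2 = 1 - (sa a : ℂ) ^ 2 := by
    have : ‖a‖ ^ 2 = 1 - sa a ^ 2 := by linarith
    exact_mod_cast this
  have h2 : (1 + (sa a : ℂ)) ≠ 0 := by
    have : (1 + sa a) ≠ 0 := by positivity
    exact_mod_cast this
  change _ * ((1 - inner ℂ a z / (1 + (sa a : ℂ))) * ((‖a‖ : ℝ) : ℂ) ^ 2 - _) = _
  rw [h1]
  field_simp
  ring

theorem phi_phi {a z : E} (ha : ‖a‖ < 1) (hz : ‖z‖ < 1) : phi a (phi a z) = z := by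
  have hne := one_sub_inner_ne ha.le hz
  have hin := inner_phi ha hz
  have hs0 := sa_pos ha
  have hsC : (sa a : ℂ) ≠ 0 := by exact_mod_cast hs0.ne'
  have h2 : (1 + (sa a : ℂ)) ≠ 0 := by
    have : (1 + sa a) ≠ 0 := by positivity
    exact_mod_cast this
  have h3 : phi a (phi a z) = (1 - inner ℂ a (phi a z))⁻¹ •
      ((1 - inner ℂ a (phi a z) / (1 + (sa a : ℂ))) • a - (sa a : ℂ) • phi a z) := rfl
  rw [h3, hin]
  set c : ℂ := inner ℂ a z with hc
  set s : ℂ := (sa a : ℂ) with hsdef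
  have h4 : phi a z = (1 - c)⁻¹ • ((1 - c / (1 + s)) • a - s • z) := rfl
  rw [h4]
  have h5 : 1 - (1 - s ^ 2 - c) / (1 - c) = s ^ 2 / (1 - c) := by field_simp; ring
  rw [h5]
  match_scalars
  · field_simp
    ring
  · field_simp

theorem phi_self {a : E} (ha : ‖a‖ < 1) : phi a a = 0 := by
  have h := phi_phi ha (z := 0) (by simp)
  rwa [phi_zero] at h

theorem phi_analytic {a : E} (ha : ‖a‖ < 1) : AnalyticOnNhd ℂ (phi a) (ball (0 : E) 1) := by
  intro z hz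
  have hz' : ‖z‖ < 1 := by simpa using hz
  have h1 : AnalyticAt ℂ (fun z => inner ℂ a z) z := (innerSL ℂ a).analyticAt z
  have hne := one_sub_inner_ne ha.le hz'
  unfold phi
  apply AnalyticAt.smul
  · exact (analyticAt_const.sub h1).inv hne
  · apply AnalyticAt.sub
    · apply AnalyticAt.smul _ analyticAt_const
      exact analyticAt_const.sub (h1.div_const)
    · exact analyticAt_const.smul analyticAt_id

/-- The basic identity: for an automorphism `β` of the ball with inverse `β'`, and `b = β' 0`,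
`1 - ‖β w‖² = (1 - ‖b‖²) (1 - ‖w‖²) / |1 - ⟨w, b⟩|²`. -/
theorem aut_identity {β β' : E → E} (hd : DifferentiableOn ℂ β (ball (0 : E) 1))
    (hd' : DifferentiableOn ℂ β' (ball (0 : E) 1))
    (hm : MapsTo β (ball (0 : E) 1) (ball (0 : E) 1))
    (hm' : MapsTo β' (ball (0 : E) 1) (ball (0 : E) 1))
    (hl : ∀ z ∈ ball (0 : E) 1, β' (β z) = z) (hr : ∀ z ∈ ball (0 : E) 1, β (β' z) = z)
    {w : E} (hw : ‖w‖ < 1) :
    1 - ‖β w‖ ^ 2 = (1 - ‖β' 0‖ ^ 2) * (1 - ‖w‖ ^ 2) / ‖(1 : ℂ) - inner ℂ (β' 0) w‖ ^ 2 := by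
  set b := β' 0 with hb
  have hb1 : ‖b‖ < 1 := by
    have := hm' (show (0 : E) ∈ ball (0 : E) 1 by simp)
    simpa using this
  have hβb : β b = 0 := hr 0 (by simp)
  have hmphi : MapsTo (phi b) (ball (0 : E) 1) (ball (0 : E) 1) := fun z hz => by
    have hz' : ‖z‖ < 1 := by simpa using hz
    simpa using phi_lt hb1 hz'
  have hdphi : DifferentiableOn ℂ (phi b) (ball (0 : E) 1) :=
    (phi_analytic hb1).differentiableOn
  -- `ψ = β ∘ φ_b` fixes the origin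
  have hle1 : ∀ u : E, ‖u‖ < 1 → ‖β (phi b u)‖ ≤ ‖u‖ := by
    intro u hu
    refine Complex.norm_le_norm_of_mapsTo_ball (f := fun u => β (phi b u)) (R := 1)
      (hd.comp hdphi hmphi) ?_ ?_ hu
    · exact fun z hz => ball_subset_closedBall (hm (hmphi hz))
    · simp [phi_zero, hβb]
  have hle2 : ∀ u : E, ‖u‖ < 1 → ‖phi b (β' u)‖ ≤ ‖u‖ := by
    intro u hu
    refine Complex.norm_le_norm_of_mapsTo_ball (f := fun u => phi b (β' u)) (R := 1)
      (hdphi.comp hd' hm') ?_ ?_ hu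
    · exact fun z hz => ball_subset_closedBall (hmphi (hm' hz))
    · simp [← hb, phi_self hb1]
  have hpw : ‖phi b w‖ < 1 := phi_lt hb1 hw
  have h1 : ‖β w‖ ≤ ‖phi b w‖ := by
    have := hle1 (phi b w) hpw
    rwa [phi_phi hb1 hw] at this
  have h2 : ‖phi b w‖ ≤ ‖β w‖ := by
    have hβw : ‖β w‖ < 1 := by
      have := hm (show w ∈ ball (0 : E) 1 by simpa using hw)
      simpa using this
    have := hle2 (β w) hβw
    rwa [hl w (by simpa using hw)] at this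
  rw [le_antisymm h1 h2]
  exact one_sub_phi hb1 hw

end Pool.Agent.U542.CH
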