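import Mathlib

/-!
# Second order expansions along holomorphic discs, by averaging over the fourth roots of unity
-/

set_option autoImplicit false
set_option linter.unusedSectionVars false
open Metric Set

namespace Pool.Agent.U542.CH

/-- sum over the fourth roots of unity -/
noncomputable def A4 (g : ℂ → ℝ) (t : ℂ) : ℝ :=
  g t + g (-t) + (g (Complex.I * t) + g (-(Complex.I * t)))

section taylor

variable {X : Type*} [NormedAddCommGroup X] [NormedSpace ℂ X] [CompleteSpace X]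

theorem taylor3 (ρ M : ℝ) (hρ : 0 < ρ) (hM : 0 ≤ M) :
    ∃ K : ℝ, 0 ≤ K ∧ M ≤ K ∧ ∀ f : ℂ → X, DifferentiableOn ℂ f (ball 0 ρ) →
      (∀ z ∈ ball (0 : ℂ) ρ, ‖f z‖ ≤ M) →
      ‖deriv f 0‖ ≤ K ∧ ∃ c : X, ‖c‖ ≤ K ∧ ∀ t ∈ ball (0 : ℂ) ρ,
        ‖f t - (f 0 + t • deriv f 0 + t ^ 2 • c)‖ ≤ K * ‖t‖ ^ 3 := by
  -- one step
  have step : ∀ (M : ℝ), 0 ≤ M → ∀ f : ℂ → X, DifferentiableOn ℂ f (ball 0 ρ) →
      (∀ z ∈ ball (0 : ℂ) ρ, ‖f z‖ ≤ M) →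
      DifferentiableOn ℂ (dslope f 0) (ball 0 ρ) ∧
        ∀ z ∈ ball (0 : ℂ) ρ, ‖dslope f 0 z‖ ≤ 2 * M / ρ := by
    intro M hM f hf hb
    constructor
    · exact (Complex.differentiableOn_dslope (ball_mem_nhds 0 hρ)).2 hf
    · intro z hz
      refine Complex.norm_dslope_le_div_of_mapsTo_ball hf ?_ hz
      intro w hw
      rw [mem_closedBall, dist_eq_norm]
      have h1 := hb w hw
      have h2 := hb 0 (mem_ball_self hρ)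
      have := norm_sub_le (f w) (f 0)
      linarith
  set K1 := 2 * M / ρ with hK1
  set K2 := 2 * K1 / ρ with hK2
  set K3 := 2 * K2 / ρ with hK3
  have h1 : 0 ≤ K1 := by positivity
  have h2 : 0 ≤ K2 := by positivity
  have h3 : 0 ≤ K3 := by positivity
  refine ⟨M + K1 + K2 + K3, by positivity, by linarith, ?_⟩
  intro f hf hb
  obtain ⟨d1, b1⟩ := step M hM f hf hb
  obtain ⟨d2, b2⟩ := step K1 h1 _ d1 b1
  obtain ⟨d3, b3⟩ := step K2 h2 _ d2 b2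
  have h0 := mem_ball_self (x := (0 : ℂ)) hρ
  refine ⟨?_, dslope (dslope f 0) 0 0, ?_, ?_⟩
  · have := b1 0 h0
    rw [dslope_same] at this
    linarith
  · have := b2 0 h0
    linarith
  · intro t ht
    have e1 : f t = f 0 + t • dslope f 0 t := by
      have := sub_smul_dslope f 0 t
      rw [sub_zero] at this
      rw [this]; abel
    have e2 : dslope f 0 t = deriv f 0 + t • dslope (dslope f 0) 0 t := by
      have := sub_smul_dslope (dslope f 0) 0 t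
      rw [sub_zero, dslope_same] at this
      rw [this]; abel
    have e3 : dslope (dslope f 0) 0 t =
        dslope (dslope f 0) 0 0 + t • dslope (dslope (dslope f 0) 0) 0 t := by
      have := sub_smul_dslope (dslope (dslope f 0) 0) 0 t
      rw [sub_zero] at this
      rw [this]; abel
    have e4 : f t - (f 0 + t • deriv f 0 + t ^ 2 • dslope (dslope f 0) 0 0) =
        t ^ 3 • dslope (dslope (dslope f 0) 0) 0 t := by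
      rw [e1, e2, e3]
      module
    rw [e4, norm_smul, norm_pow, mul_comm]
    apply mul_le_mul_of_nonneg_right _ (by positivity)
    have := b3 t ht
    linarith

end taylor

section inner

variable {X : Type*} [NormedAddCommGroup X] [InnerProductSpace ℂ X] [CompleteSpace X]

theorem four_sum (a b c : X) :
    ‖a + b + c‖ ^ 2 + ‖a - b + c‖ ^ 2 +
      (‖a + Complex.I • b - c‖ ^ 2 + ‖a - Complex.I • b - c‖ ^ 2) =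
      4 * (‖a‖ ^ 2 + ‖b‖ ^ 2 + ‖c‖ ^ 2) := by
  have h1 := parallelogram_law_with_norm ℂ (a + c) b
  have h2 := parallelogram_law_with_norm ℂ (a - c) (Complex.I • b)
  have h3 := parallelogram_law_with_norm ℂ a c
  have e1 : a + b + c = a + c + b := by abel
  have e2 : a - b + c = a + c - b := by abel
  have e3 : a + Complex.I • b - c = a - c + Complex.I • b := by abel
  have e4 : a - Complex.I • b - c = a - c - Complex.I • b := by abel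
  have e5 : ‖Complex.I • b‖ = ‖b‖ := by rw [norm_smul]; simp
  rw [e1, e2, e3, e4]
  rw [e5] at h2
  nlinarith

theorem A4_sq (ρ M : ℝ) (hρ : 0 < ρ) (hM : 0 ≤ M) :
    ∃ K : ℝ, 0 ≤ K ∧ ∀ f : ℂ → X, DifferentiableOn ℂ f (ball 0 ρ) →
      (∀ z ∈ ball (0 : ℂ) ρ, ‖f z‖ ≤ M) → ∀ t ∈ ball (0 : ℂ) ρ, ‖t‖ ≤ 1 →
        |A4 (fun t => ‖f t‖ ^ 2) t - (4 * ‖f 0‖ ^ 2 + 4 * ‖t‖ ^ 2 * ‖deriv f 0‖ ^ 2)| ≤
          K * ‖t‖ ^ 3 := by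
  obtain ⟨K, hK, hMK, hT⟩ := taylor3 (X := X) ρ M hρ hM
  refine ⟨4 * (K * (4 * K)) + 4 * K ^ 2, by positivity, ?_⟩
  intro f hf hb t ht ht1
  obtain ⟨hd, c, hc, hTf⟩ := hT f hf hb
  have h0 : ‖f 0‖ ≤ K := (hb 0 (mem_ball_self hρ)).trans hMK
  have ht' : ‖t‖ < ρ := by simpa using ht
  have tn := norm_nonneg t
  -- the error at one point
  have key : ∀ s : ℂ, ‖s‖ = ‖t‖ →
      |‖f s‖ ^ 2 - ‖f 0 + s • deriv f 0 + s ^ 2 • c‖ ^ 2| ≤ K * (4 * K) * ‖t‖ ^ 3 := by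
    intro s hs
    have hsb : s ∈ ball (0 : ℂ) ρ := by simpa [hs] using ht'
    have e1 := hTf s hsb
    have e2 : ‖f s‖ ≤ K := (hb s hsb).trans hMK
    have e3 : ‖f 0 + s • deriv f 0 + s ^ 2 • c‖ ≤ 3 * K := by
      have a1 := norm_add₃_le (a := f 0) (b := s • deriv f 0) (c := s ^ 2 • c)
      rw [norm_smul, norm_smul, norm_pow, hs] at a1
      have a2 : ‖t‖ * ‖deriv f 0‖ ≤ 1 * K := mul_le_mul ht1 hd (norm_nonneg _) (by norm_num)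
      have a3 : ‖t‖ ^ 2 * ‖c‖ ≤ 1 * K :=
        mul_le_mul (pow_le_one₀ tn ht1) hc (norm_nonneg _) (by norm_num)
      linarith
    set q := f 0 + s • deriv f 0 + s ^ 2 • c with hq
    have e4 : ‖f s‖ ^ 2 - ‖q‖ ^ 2 = (‖f s‖ - ‖q‖) * (‖f s‖ + ‖q‖) := by ring
    rw [e4, abs_mul]
    have e5 : |‖f s‖ - ‖q‖| ≤ K * ‖t‖ ^ 3 := by
      rw [hs] at e1
      exact (abs_norm_sub_norm_le _ _).trans e1
    have e6 : |‖f s‖ + ‖q‖| ≤ 4 * K := by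
      rw [abs_of_nonneg (by positivity)]
      linarith
    calc |‖f s‖ - ‖q‖| * |‖f s‖ + ‖q‖| ≤ (K * ‖t‖ ^ 3) * (4 * K) :=
          mul_le_mul e5 e6 (abs_nonneg _) (by positivity)
      _ = K * (4 * K) * ‖t‖ ^ 3 := by ring
  have k1 := key t rfl
  have k2 := key (-t) (norm_neg t)
  have k3 := key (Complex.I * t) (by simp)
  have k4 := key (-(Complex.I * t)) (by simp)
  have h4 := four_sum (f 0) (t • deriv f 0) (t ^ 2 • c)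
  have r2 : f 0 + -t • deriv f 0 + (-t) ^ 2 • c = f 0 - t • deriv f 0 + t ^ 2 • c := by module
  have hI : (Complex.I * t) ^ 2 = - t ^ 2 := by
    rw [mul_pow, Complex.I_sq]; ring
  have r3 : f 0 + (Complex.I * t) • deriv f 0 + (Complex.I * t) ^ 2 • c =
      f 0 + Complex.I • (t • deriv f 0) - t ^ 2 • c := by
    rw [hI]; module
  have r4 : f 0 + (-(Complex.I * t)) • deriv f 0 + (-(Complex.I * t)) ^ 2 • c =
      f 0 - Complex.I • (t • deriv f 0) - t ^ 2 • c := by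
    rw [neg_sq, hI]; module
  rw [r2] at k2
  rw [r3] at k3
  rw [r4] at k4
  rw [norm_smul (t) (deriv f 0), norm_smul (t ^ 2) c, norm_pow] at h4
  have h5 : (‖t‖ ^ 2 * ‖c‖) ^ 2 ≤ K ^ 2 * ‖t‖ ^ 3 := by
    have a1 : ‖c‖ ^ 2 ≤ K ^ 2 := pow_le_pow_left₀ (norm_nonneg _) hc 2
    have a2 : ‖t‖ ^ 4 ≤ ‖t‖ ^ 3 := pow_le_pow_of_le_one tn ht1 (by norm_num)
    calc (‖t‖ ^ 2 * ‖c‖) ^ 2 = ‖c‖ ^ 2 * ‖t‖ ^ 4 := by ring
      _ ≤ K ^ 2 * ‖t‖ ^ 3 := mul_le_mul a1 a2 (by positivity) (by positivity)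
  have h6 : 0 ≤ (‖t‖ ^ 2 * ‖c‖) ^ 2 := by positivity
  unfold A4
  rw [abs_le] at k1 k2 k3 k4 ⊢
  constructor
  · nlinarith [k1.1, k2.1, k3.1, k4.1]
  · nlinarith [k1.2, k2.2, k3.2, k4.2]

end inner

/-- real parts of holomorphic functions -/
theorem A4_re (f : ℂ → ℂ) (hf : AnalyticAt ℂ f 0) :
    ∃ K ρ : ℝ, 0 ≤ K ∧ 0 < ρ ∧ ∀ t : ℂ, ‖t‖ < ρ →
      |A4 (fun t => (f t).re) t - 4 * (f 0).re| ≤ K * ‖t‖ ^ 3 := by
  obtain ⟨ρ, M, hρ, hM, hd, hb⟩ : ∃ ρ M : ℝ, 0 < ρ ∧ 0 ≤ M ∧ DifferentiableOn ℂ f (ball 0 ρ) ∧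
      ∀ z ∈ ball (0 : ℂ) ρ, ‖f z‖ ≤ M := by
    have h1 : ∀ᶠ z in nhds (0 : ℂ), DifferentiableAt ℂ f z :=
      hf.eventually_analyticAt.mono fun z hz => hz.differentiableAt
    have h2 : ∀ᶠ z in nhds (0 : ℂ), ‖f z‖ < ‖f 0‖ + 1 :=
      hf.continuousAt.norm.eventually_lt continuousAt_const (by simp)
    obtain ⟨ρ, hρ, hball⟩ := Metric.eventually_nhds_iff_ball.1 (h1.and h2)
    exact ⟨ρ, ‖f 0‖ + 1, hρ, by positivity,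
      fun z hz => (hball z hz).1.differentiableWithinAt, fun z hz => (hball z hz).2.le⟩
  obtain ⟨K, hK, -, hT⟩ := taylor3 (X := ℂ) ρ M hρ hM
  obtain ⟨-, c, hc, hTf⟩ := hT f hd hb
  refine ⟨4 * K, ρ, by positivity, hρ, ?_⟩
  intro t ht
  have key : ∀ s : ℂ, ‖s‖ = ‖t‖ →
      |(f s).re - (f 0 + s * deriv f 0 + s ^ 2 * c).re| ≤ K * ‖t‖ ^ 3 := by
    intro s hs
    have hsb : s ∈ ball (0 : ℂ) ρ := by simpa [hs] using ht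
    have e1 := hTf s hsb
    rw [hs] at e1
    rw [← Complex.sub_re]
    exact (Complex.abs_re_le_norm _).trans e1
  have k1 := key t rfl
  have k2 := key (-t) (norm_neg t)
  have k3 := key (Complex.I * t) (by simp)
  have k4 := key (-(Complex.I * t)) (by simp)
  have hsum : (f 0 + t * deriv f 0 + t ^ 2 * c).re + (f 0 + -t * deriv f 0 + (-t) ^ 2 * c).re +
      ((f 0 + (Complex.I * t) * deriv f 0 + (Complex.I * t) ^ 2 * c).re +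
      (f 0 + (-(Complex.I * t)) * deriv f 0 + (-(Complex.I * t)) ^ 2 * c).re) = 4 * (f 0).re := by
    have hI : (Complex.I * t) ^ 2 = - t ^ 2 := by
      rw [mul_pow, Complex.I_sq]; ring
    rw [neg_sq (Complex.I * t), hI, ← Complex.add_re, ← Complex.add_re, ← Complex.add_re]
    have : f 0 + t * deriv f 0 + t ^ 2 * c + (f 0 + -t * deriv f 0 + (-t) ^ 2 * c) +
        (f 0 + Complex.I * t * deriv f 0 + -t ^ 2 * c +
          (f 0 + -(Complex.I * t) * deriv f 0 + -t ^ 2 * c)) = 4 * f 0 := by ring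
    rw [this]
    simp
  unfold A4
  rw [abs_le] at k1 k2 k3 k4 ⊢
  constructor
  · nlinarith [k1.1, k2.1, k3.1, k4.1]
  · nlinarith [k1.2, k2.2, k3.2, k4.2]

theorem pow_upper (x : ℝ) (hx0 : 0 ≤ x) (hx1 : x ≤ 1) (k : ℕ) :
    (1 - x) ^ k ≤ 1 - k * x + k ^ 2 * x ^ 2 := by
  induction k with
  | zero => simp
  | succ k ih =>
    have h1 : (1 - x) ^ (k + 1) ≤ (1 - k * x + k ^ 2 * x ^ 2) * (1 - x) := by
      rw [pow_succ]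
      exact mul_le_mul_of_nonneg_right ih (by linarith)
    refine h1.trans ?_
    push_cast
    have h2 : 0 ≤ (k : ℝ) := by positivity
    have h3 : 0 ≤ (k : ℝ) ^ 2 * x ^ 3 := by positivity
    have h4 : 0 ≤ (k : ℝ) * x ^ 2 := by positivity
    have h5 : 0 ≤ x ^ 2 := by positivity
    nlinarith

theorem pow_lower (x : ℝ) (hx1 : x ≤ 1) (k : ℕ) :
    1 - k * x ≤ (1 - x) ^ k := by
  have := one_add_mul_le_pow (a := -x) (by linarith) k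
  calc 1 - k * x = 1 + k * (-x) := by ring
    _ ≤ (1 + -x) ^ k := this
    _ = (1 - x) ^ k := by ring

section main

variable {E : Type*} [NormedAddCommGroup E] [InnerProductSpace ℂ E] [CompleteSpace E]

/-- a disc through the origin stays in a small ball, with control of its norm -/
theorem disc_bounds (δ : ℂ → E) (hδ : AnalyticAt ℂ δ 0) (h0 : δ 0 = 0) (h1 : ‖deriv δ 0‖ = 1) :
    ∃ ρ K : ℝ, 0 < ρ ∧ ρ ≤ 1 ∧ 0 ≤ K ∧ DifferentiableOn ℂ δ (ball 0 ρ) ∧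
      (∀ t ∈ ball (0 : ℂ) ρ, ‖δ t‖ ≤ 1 / 2) ∧
      ∀ t ∈ ball (0 : ℂ) ρ, |‖δ t‖ ^ 2 - ‖t‖ ^ 2| ≤ K * ‖t‖ ^ 3 := by
  have a1 : ∀ᶠ z in nhds (0 : ℂ), DifferentiableAt ℂ δ z :=
    hδ.eventually_analyticAt.mono fun z hz => hz.differentiableAt
  have a2 : ∀ᶠ z in nhds (0 : ℂ), ‖δ z‖ < 1 / 2 :=
    hδ.continuousAt.norm.eventually_lt continuousAt_const (by simp [h0])
  obtain ⟨ρ, hρ, hball⟩ := Metric.eventually_nhds_iff_ball.1 (a1.and a2)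
  set ρ' := min ρ 1 with hρ'
  have hρ'0 : 0 < ρ' := lt_min hρ one_pos
  have hsub : ball (0 : ℂ) ρ' ⊆ ball 0 ρ := ball_subset_ball (min_le_left _ _)
  have hd : DifferentiableOn ℂ δ (ball 0 ρ') :=
    fun z hz => (hball z (hsub hz)).1.differentiableWithinAt
  have hb : ∀ t ∈ ball (0 : ℂ) ρ', ‖δ t‖ ≤ 1 / 2 := fun z hz => (hball z (hsub hz)).2.le
  obtain ⟨K, hK, -, hT⟩ := taylor3 (X := E) ρ' (1 / 2) hρ'0 (by norm_num)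
  obtain ⟨-, c, hc, hTf⟩ := hT δ hd hb
  refine ⟨ρ', 2 * K * (2 * K + 2), hρ'0, min_le_right _ _, by positivity, hd, hb, ?_⟩
  intro t ht
  have ht' : ‖t‖ < ρ' := by simpa using ht
  have ht1 : ‖t‖ ≤ 1 := ht'.le.trans (min_le_right _ _)
  have tn := norm_nonneg t
  have e1 := hTf t ht
  rw [h0, zero_add] at e1
  have e2 : ‖δ t - t • deriv δ 0‖ ≤ 2 * K * ‖t‖ ^ 2 := by
    have : δ t - t • deriv δ 0 = (δ t - (t • deriv δ 0 + t ^ 2 • c)) + t ^ 2 • c := by abel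
    rw [this]
    refine (norm_add_le _ _).trans ?_
    rw [norm_smul (t ^ 2) c, norm_pow]
    have b1 : K * ‖t‖ ^ 3 ≤ K * ‖t‖ ^ 2 :=
      mul_le_mul_of_nonneg_left (pow_le_pow_of_le_one tn ht1 (by norm_num)) hK
    have b2 : ‖t‖ ^ 2 * ‖c‖ ≤ ‖t‖ ^ 2 * K := mul_le_mul_of_nonneg_left hc (by positivity)
    linarith
  have e3 : ‖t • deriv δ 0‖ = ‖t‖ := by rw [norm_smul, h1, mul_one]
  have e4 : |‖δ t‖ - ‖t‖| ≤ 2 * K * ‖t‖ ^ 2 := by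
    have := abs_norm_sub_norm_le (δ t) (t • deriv δ 0)
    rw [e3] at this
    exact this.trans e2
  have e5 : ‖δ t‖ + ‖t‖ ≤ (2 * K + 2) * ‖t‖ := by
    have := (abs_le.1 e4).2
    have b1 : 2 * K * ‖t‖ ^ 2 ≤ 2 * K * ‖t‖ := by
      have : ‖t‖ ^ 2 ≤ ‖t‖ := by nlinarith
      nlinarith
    linarith
  have e6 : ‖δ t‖ ^ 2 - ‖t‖ ^ 2 = (‖δ t‖ - ‖t‖) * (‖δ t‖ + ‖t‖) := by ring
  rw [e6, abs_mul, abs_of_nonneg (by positivity : 0 ≤ ‖δ t‖ + ‖t‖)]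
  calc |‖δ t‖ - ‖t‖| * (‖δ t‖ + ‖t‖) ≤ (2 * K * ‖t‖ ^ 2) * ((2 * K + 2) * ‖t‖) :=
        mul_le_mul e4 e5 (by positivity) (by positivity)
    _ = 2 * K * (2 * K + 2) * ‖t‖ ^ 3 := by ring

/-- the factor `(1 - ‖δ t‖²)^k` -/
theorem disc_pow (δ : ℂ → E) (hδ : AnalyticAt ℂ δ 0) (h0 : δ 0 = 0) (h1 : ‖deriv δ 0‖ = 1)
    (k : ℕ) :
    ∃ ρ K : ℝ, 0 < ρ ∧ ρ ≤ 1 ∧ 0 ≤ K ∧ DifferentiableOn ℂ δ (ball 0 ρ) ∧
      (∀ t ∈ ball (0 : ℂ) ρ, ‖δ t‖ ≤ 1 / 2) ∧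
      ∀ t ∈ ball (0 : ℂ) ρ, |(1 - ‖δ t‖ ^ 2) ^ k - (1 - k * ‖t‖ ^ 2)| ≤ K * ‖t‖ ^ 3 := by
  obtain ⟨ρ, K, hρ, hρ1, hK, hd, hb, hn⟩ := disc_bounds δ hδ h0 h1
  refine ⟨ρ, k * K + k ^ 2 * (1 + K) ^ 2, hρ, hρ1, by positivity, hd, hb, ?_⟩
  intro t ht
  have ht1 : ‖t‖ ≤ 1 := by
    have : ‖t‖ < ρ := by simpa using ht
    linarith
  have tn := norm_nonneg t
  have e1 := hn t ht
  have e2 := hb t ht
  have dn := norm_nonneg (δ t)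
  set x := ‖δ t‖ ^ 2 with hx
  have hx0 : 0 ≤ x := by positivity
  have hx1 : x ≤ 1 := by rw [hx]; nlinarith
  have e3 := pow_upper x hx0 hx1 k
  have e4 := pow_lower x hx1 k
  have kn : 0 ≤ (k : ℝ) := by positivity
  have e5 : x ≤ (1 + K) * ‖t‖ ^ 2 := by
    have b1 : K * ‖t‖ ^ 3 ≤ K * ‖t‖ ^ 2 :=
      mul_le_mul_of_nonneg_left (pow_le_pow_of_le_one tn ht1 (by norm_num)) hK
    have := (abs_le.1 e1).2
    linarith
  have e6 : x ^ 2 ≤ (1 + K) ^ 2 * ‖t‖ ^ 3 := by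
    have b1 : x ^ 2 ≤ ((1 + K) * ‖t‖ ^ 2) ^ 2 := pow_le_pow_left₀ hx0 e5 2
    have b2 : ‖t‖ ^ 4 ≤ ‖t‖ ^ 3 := pow_le_pow_of_le_one tn ht1 (by norm_num)
    calc x ^ 2 ≤ ((1 + K) * ‖t‖ ^ 2) ^ 2 := b1
      _ = (1 + K) ^ 2 * ‖t‖ ^ 4 := by ring
      _ ≤ (1 + K) ^ 2 * ‖t‖ ^ 3 := mul_le_mul_of_nonneg_left b2 (by positivity)
  have e7 : (k : ℝ) ^ 2 * x ^ 2 ≤ (k : ℝ) ^ 2 * ((1 + K) ^ 2 * ‖t‖ ^ 3) :=
    mul_le_mul_of_nonneg_left e6 (by positivity)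
  have e8 : (k : ℝ) * (x - ‖t‖ ^ 2) ≤ (k : ℝ) * (K * ‖t‖ ^ 3) :=
    mul_le_mul_of_nonneg_left (abs_le.1 e1).2 kn
  have e9 : (k : ℝ) * (-(K * ‖t‖ ^ 3)) ≤ (k : ℝ) * (x - ‖t‖ ^ 2) :=
    mul_le_mul_of_nonneg_left (abs_le.1 e1).1 kn
  have e10 : 0 ≤ (k : ℝ) ^ 2 * ((1 + K) ^ 2 * ‖t‖ ^ 3) := by positivity
  rw [abs_le]
  constructor
  · nlinarith
  · nlinarith

/-- main expansion -/
theorem expansion (δ : ℂ → E) (hδ : AnalyticAt ℂ δ 0) (h0 : δ 0 = 0) (h1 : ‖deriv δ 0‖ = 1)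
    (k : ℕ) :
    ∃ ρ C : ℝ, 0 < ρ ∧ 0 ≤ C ∧ (∀ t ∈ ball (0 : ℂ) ρ, ‖δ t‖ ≤ 1 / 2) ∧
      ∀ b : E, ‖b‖ ≤ 1 → ∀ t ∈ ball (0 : ℂ) ρ,
        |A4 (fun t => (1 - ‖δ t‖ ^ 2) ^ k / (‖(1 : ℂ) - inner ℂ b (δ t)‖ ^ 2) ^ k) t -
          (4 + 4 * ‖t‖ ^ 2 * (k ^ 2 * ‖inner ℂ b (deriv δ 0)‖ ^ 2 - k))| ≤ C * ‖t‖ ^ 3 := by
  obtain ⟨ρ, K, hρ, hρ1, hK, hd, hb, hp⟩ := disc_pow δ hδ h0 h1 k
  obtain ⟨K2, hK2, hS⟩ := A4_sq (X := ℂ) ρ (2 ^ k) hρ (by positivity)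
  refine ⟨ρ, 4 * k ^ 3 + (1 + k) * K2 + 4 * (K * (2 ^ k) ^ 2), hρ, by positivity, hb, ?_⟩
  intro b hb1 t ht
  have ht' : ‖t‖ < ρ := by simpa using ht
  have ht1 : ‖t‖ ≤ 1 := by linarith
  have tn := norm_nonneg t
  -- the holomorphic function
  set u : ℂ → ℂ := fun t => ((1 - inner ℂ b (δ t)) ^ k)⁻¹ with hu
  have hin : ∀ s ∈ ball (0 : ℂ) ρ, ‖inner ℂ b (δ s)‖ ≤ 1 / 2 := by
    intro s hs
    have a1 := norm_inner_le_norm (𝕜 := ℂ) b (δ s)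
    have a2 := hb s hs
    have a3 : ‖b‖ * ‖δ s‖ ≤ 1 * (1 / 2) := mul_le_mul hb1 a2 (norm_nonneg _) (by norm_num)
    linarith
  have hlow : ∀ s ∈ ball (0 : ℂ) ρ, 1 / 2 ≤ ‖(1 : ℂ) - inner ℂ b (δ s)‖ := by
    intro s hs
    have a1 := norm_sub_norm_le (1 : ℂ) (inner ℂ b (δ s))
    rw [norm_one] at a1
    have := hin s hs
    linarith
  have hne : ∀ s ∈ ball (0 : ℂ) ρ, (1 : ℂ) - inner ℂ b (δ s) ≠ 0 := by
    intro s hs h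
    have := hlow s hs
    rw [h, norm_zero] at this
    norm_num at this
  have hdin : ∀ s ∈ ball (0 : ℂ) ρ, DifferentiableAt ℂ (fun s => inner ℂ b (δ s)) s := by
    intro s hs
    have : DifferentiableAt ℂ δ s := (hd s hs).differentiableAt (isOpen_ball.mem_nhds hs)
    exact ((innerSL ℂ b).differentiableAt).comp s this
  have hud : DifferentiableOn ℂ u (ball 0 ρ) := by
    intro s hs
    apply DifferentiableAt.differentiableWithinAt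
    exact (((differentiableAt_const _).sub (hdin s hs)).pow k).inv (pow_ne_zero _ (hne s hs))
  have hub : ∀ s ∈ ball (0 : ℂ) ρ, ‖u s‖ ≤ 2 ^ k := by
    intro s hs
    simp only [hu]
    rw [norm_inv, norm_pow]
    have a1 := hlow s hs
    have a2 : (1 / 2 : ℝ) ^ k ≤ ‖(1 : ℂ) - inner ℂ b (δ s)‖ ^ k :=
      pow_le_pow_left₀ (by norm_num) a1 k
    have a3 : (‖(1 : ℂ) - inner ℂ b (δ s)‖ ^ k)⁻¹ ≤ ((1 / 2 : ℝ) ^ k)⁻¹ :=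
      inv_anti₀ (by positivity) a2
    have a4 : ((1 / 2 : ℝ) ^ k)⁻¹ = 2 ^ k := by
      rw [← inv_pow]; norm_num
    rwa [a4] at a3
  have hmem0 : (0 : ℂ) ∈ ball (0 : ℂ) ρ := mem_ball_self hρ
  have hu0 : u 0 = 1 := by simp [hu, h0]
  have hu1 : deriv u 0 = k * inner ℂ b (deriv δ 0) := by
    have hδd : HasDerivAt δ (deriv δ 0) 0 := hδ.differentiableAt.hasDerivAt
    have a1 : HasDerivAt (fun s => inner ℂ b (δ s)) (inner ℂ b (deriv δ 0)) 0 :=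
      ((innerSL ℂ b).hasFDerivAt (x := δ 0)).comp_hasDerivAt 0 hδd
    have a2 := ((a1.const_sub 1).pow k).inv (by simp [h0])
    have a3 := a2.deriv
    have a4 : ((fun s => 1 - inner ℂ b (δ s)) ^ k)⁻¹ = u := by
      funext s; simp [hu]
    rw [a4] at a3
    rw [a3]
    simp [h0]
  have hS' := hS u hud hub t ht ht1
  rw [hu0, hu1, norm_mul, norm_one] at hS'
  have hkn : ‖(k : ℂ)‖ = k := by simp
  rw [hkn] at hS'
  -- products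
  have hval : ∀ s ∈ ball (0 : ℂ) ρ,
      (1 - ‖δ s‖ ^ 2) ^ k / (‖(1 : ℂ) - inner ℂ b (δ s)‖ ^ 2) ^ k =
        (1 - ‖δ s‖ ^ 2) ^ k * ‖u s‖ ^ 2 := by
    intro s hs
    simp only [hu]
    rw [norm_inv, norm_pow, div_eq_mul_inv, inv_pow, ← pow_mul, ← pow_mul, mul_comm 2 k]
  have key : ∀ s : ℂ, ‖s‖ = ‖t‖ →
      |(1 - ‖δ s‖ ^ 2) ^ k / (‖(1 : ℂ) - inner ℂ b (δ s)‖ ^ 2) ^ k -
        (1 - k * ‖t‖ ^ 2) * ‖u s‖ ^ 2| ≤ K * (2 ^ k) ^ 2 * ‖t‖ ^ 3 := by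
    intro s hs
    have hsb : s ∈ ball (0 : ℂ) ρ := by simpa [hs] using ht'
    rw [hval s hsb, ← sub_mul, abs_mul, abs_of_nonneg (by positivity : 0 ≤ ‖u s‖ ^ 2)]
    have a1 := hp s hsb
    rw [hs] at a1
    have a2 : ‖u s‖ ^ 2 ≤ (2 ^ k) ^ 2 := pow_le_pow_left₀ (norm_nonneg _) (hub s hsb) 2
    calc |(1 - ‖δ s‖ ^ 2) ^ k - (1 - k * ‖t‖ ^ 2)| * ‖u s‖ ^ 2
        ≤ (K * ‖t‖ ^ 3) * (2 ^ k) ^ 2 := mul_le_mul a1 a2 (by positivity) (by positivity)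
      _ = K * (2 ^ k) ^ 2 * ‖t‖ ^ 3 := by ring
  have k1 := key t rfl
  have k2 := key (-t) (norm_neg t)
  have k3 := key (Complex.I * t) (by simp)
  have k4 := key (-(Complex.I * t)) (by simp)
  -- combine
  set W := ‖inner ℂ b (deriv δ 0)‖ with hW
  have hW1 : W ≤ 1 := by
    have a1 := norm_inner_le_norm (𝕜 := ℂ) b (deriv δ 0)
    rw [h1, mul_one] at a1
    exact a1.trans hb1
  have hW0 : 0 ≤ W := norm_nonneg _
  set Q := A4 (fun t => ‖u t‖ ^ 2) t with hQ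
  have hQ' : Q = ‖u t‖ ^ 2 + ‖u (-t)‖ ^ 2 + (‖u (Complex.I * t)‖ ^ 2 + ‖u (-(Complex.I * t))‖ ^ 2) :=
    rfl
  have kn : (0 : ℝ) ≤ k := by positivity
  have hfac : |1 - (k : ℝ) * ‖t‖ ^ 2| ≤ 1 + (k : ℝ) := by
    rw [abs_le]
    have : (k : ℝ) * ‖t‖ ^ 2 ≤ k * 1 := mul_le_mul_of_nonneg_left (pow_le_one₀ tn ht1) kn
    have h : 0 ≤ (k : ℝ) * ‖t‖ ^ 2 := by positivity
    constructor <;> linarith
  have hE : |(1 - k * ‖t‖ ^ 2) * (Q - (4 * 1 ^ 2 + 4 * ‖t‖ ^ 2 * (k * W) ^ 2))| ≤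
      (1 + k) * K2 * ‖t‖ ^ 3 := by
    rw [abs_mul]
    calc _ ≤ (1 + (k : ℝ)) * (K2 * ‖t‖ ^ 3) := mul_le_mul hfac hS' (abs_nonneg _) (by positivity)
      _ = (1 + k) * K2 * ‖t‖ ^ 3 := by ring
  have hF : 0 ≤ 4 * (k : ℝ) ^ 3 * ‖t‖ ^ 4 * W ^ 2 ∧
      4 * (k : ℝ) ^ 3 * ‖t‖ ^ 4 * W ^ 2 ≤ 4 * k ^ 3 * ‖t‖ ^ 3 := by
    refine ⟨by positivity, ?_⟩
    have b1 : ‖t‖ ^ 4 ≤ ‖t‖ ^ 3 := pow_le_pow_of_le_one tn ht1 (by norm_num)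
    have b2 : W ^ 2 ≤ 1 := pow_le_one₀ hW0 hW1
    calc 4 * (k : ℝ) ^ 3 * ‖t‖ ^ 4 * W ^ 2 ≤ 4 * (k : ℝ) ^ 3 * ‖t‖ ^ 4 * 1 :=
          mul_le_mul_of_nonneg_left b2 (by positivity)
      _ = 4 * (k : ℝ) ^ 3 * ‖t‖ ^ 4 := by ring
      _ ≤ 4 * k ^ 3 * ‖t‖ ^ 3 := mul_le_mul_of_nonneg_left b1 (by positivity)
  unfold A4
  rw [abs_le] at k1 k2 k3 k4 hE ⊢
  have hid : (1 - k * ‖t‖ ^ 2) * (Q - (4 * 1 ^ 2 + 4 * ‖t‖ ^ 2 * (k * W) ^ 2)) =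
      (1 - k * ‖t‖ ^ 2) * Q - (4 + 4 * ‖t‖ ^ 2 * (k ^ 2 * W ^ 2 - k)) +
        4 * (k : ℝ) ^ 3 * ‖t‖ ^ 4 * W ^ 2 := by ring
  rw [hid] at hE
  have hQe : (1 - k * ‖t‖ ^ 2) * Q = (1 - k * ‖t‖ ^ 2) * ‖u t‖ ^ 2 +
      (1 - k * ‖t‖ ^ 2) * ‖u (-t)‖ ^ 2 + ((1 - k * ‖t‖ ^ 2) * ‖u (Complex.I * t)‖ ^ 2 +
      (1 - k * ‖t‖ ^ 2) * ‖u (-(Complex.I * t))‖ ^ 2) := by rw [hQ']; ring
  constructor
  · linarith [k1.1, k2.1, k3.1, k4.1, hE.1, hF.1, hF.2]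
  · linarith [k1.2, k2.2, k3.2, k4.2, hE.2, hF.1, hF.2]

end main

end Pool.Agent.U542.CH
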