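import Pool.Agent.U542.CH.Loc

/-!
# The function singling out good points: proof
-/

set_option autoImplicit false
set_option linter.unusedSectionVars false
open Metric Set Filter Topology

namespace Pool.Agent.U542.CH

variable {E : Type*} [NormedAddCommGroup E] [NormedSpace ℂ E] [FiniteDimensional ℂ E]

/-- holomorphic functions on `V` vanishing on `N ∩ V` -/
def Ann (Z V : Set E) (k : ℕ) (a : E → ℂ) : Prop :=
  AnalyticOnNhd ℂ a V ∧ ∀ z ∈ V, InN Z k z → a z = 0

theorem Ann.closure {Z V : Set E} {k : ℕ} {a : E → ℂ} (hV : IsOpen V) (ha : Ann Z V k a) {z : E}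
    (hz : z ∈ V) (hc : z ∈ closure {x | InN Z k x}) : a z = 0 := by
  by_contra hne
  have h1 : ∀ᶠ x in 𝓝 z, a x ≠ 0 ∧ x ∈ V :=
    ((ha.1 z hz).continuousAt.eventually_ne hne).and (hV.mem_nhds hz)
  obtain ⟨x, hx, hxV⟩ := ((mem_closure_iff_frequently.1 hc).and_eventually h1).exists
  exact hxV.1 (ha.2 x hxV.2 hx)

/-- the derived function -/
noncomputable def derf {r : ℕ} (g : Fin r → E → ℂ) (e : Fin r → E) (w : E) (m : ℕ) (a : E → ℂ)
    (z : E) : ℂ :=
  (Gm g e z).det * fderiv ℂ a z (Yf g e w z) -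
    m * a z * fderiv ℂ (fun z => (Gm g e z).det) z (Yf g e w z)

theorem good_function (Z : Set E) (k : ℕ) (V : Set E) (hV : IsOpen V) {q : ℕ} (f : Fin q → E → ℂ)
    (hf : ∀ i, AnalyticOnNhd ℂ (f i) V) (hZ : ∀ z ∈ V, (∀ i, f i z = 0) ↔ z ∈ Z)
    (hne : ∃ z ∈ V, InN Z k z) :
    ∃ D : E → ℂ, AnalyticOnNhd ℂ D V ∧ (∃ z ∈ V, InN Z k z ∧ D z ≠ 0) ∧
      ∀ z ∈ V, z ∈ closure {x | InN Z k x} → D z ≠ 0 → InN Z k z := by
  classical
  have hcomp : CompleteSpace E := FiniteDimensional.complete ℂ E
  set P : ℕ → Prop := fun r => ∃ g : Fin r → E → ℂ, (∀ i, Ann Z V k (g i)) ∧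
    ∃ z ∈ V, InN Z k z ∧ LinearIndependent ℂ (fun i => fderiv ℂ (g i) z) with hP
  have hP0 : P 0 := by
    obtain ⟨z, hz, hzN⟩ := hne
    exact ⟨fun i => i.elim0, fun i => i.elim0, z, hz, hzN, linearIndependent_empty_type⟩
  have hbd : ∀ r, P r → r ≤ Module.finrank ℂ (E →L[ℂ] ℂ) := by
    rintro r ⟨g, -, z, -, -, hli⟩
    have := hli.fintype_card_le_finrank
    simpa using this
  obtain ⟨r, ⟨g, hgA, z0, hz0V, hz0N, hli0⟩, hmax⟩ : ∃ r, P r ∧ ¬ P (r + 1) := by
    by_contra hcon
    push Not at hcon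
    have hall : ∀ r, P r := by
      intro r
      induction r with
      | zero => exact hP0
      | succ r ih => exact hcon r ih
    have := hbd _ (hall (Module.finrank ℂ (E →L[ℂ] ℂ) + 1))
    omega
  -- the vectors
  have hsurj0 := surj_of_indep _ hli0
  choose e he using fun j : Fin r => hsurj0 (Pi.single j 1)
  have he' : ∀ i j, fderiv ℂ (g i) z0 (e j) = (Pi.single j (1 : ℂ) : Fin r → ℂ) i := by
    intro i j
    exact congrFun (he j) i
  have hG0 : Gm g e z0 = 1 := by
    ext i j
    simp only [Gm, Matrix.of_apply, he', Pi.single_apply, Matrix.one_apply]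
  set D : E → ℂ := fun z => (Gm g e z).det with hD
  have hgan : ∀ z ∈ V, ∀ i, AnalyticAt ℂ (g i) z := fun z hz i => (hgA i).1 z hz
  have hDan : AnalyticOnNhd ℂ D V := fun z hz => det_analytic (Gm_entry (hgan z hz))
  -- independence where `D ≠ 0`
  have hind : ∀ z, D z ≠ 0 → LinearIndependent ℂ (fun i => fderiv ℂ (g i) z) := by
    intro z hz
    rw [Fintype.linearIndependent_iff]
    intro c hc
    have h1 : Matrix.vecMul c (Gm g e z) = 0 := by
      funext j
      simp only [Matrix.vecMul, dotProduct, Gm, Matrix.of_apply, Pi.zero_apply]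
      have := congrArg (fun L : E →L[ℂ] ℂ => L (e j)) hc
      simpa using this
    have h2 := Matrix.eq_zero_of_vecMul_eq_zero hz h1
    intro i
    exact congrFun h2 i
  -- maximality
  have hmaxi : ∀ a, Ann Z V k a → ∀ z ∈ V, InN Z k z → D z ≠ 0 → ∀ y : E,
      (∀ i, fderiv ℂ (g i) z y = 0) → fderiv ℂ a z y = 0 := by
    intro a ha z hz hzN hDz y hy
    by_contra hay
    apply hmax
    refine ⟨Fin.cons a g, ?_, z, hz, hzN, ?_⟩
    · intro i
      refine Fin.cases ?_ ?_ i
      · simpa using ha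
      · intro j; simpa using hgA j
    · have hcons : (fun i => fderiv ℂ ((Fin.cons a g : Fin (r + 1) → E → ℂ) i) z) =
          Fin.cons (fderiv ℂ a z) (fun i => fderiv ℂ (g i) z) := by
        funext i
        refine Fin.cases ?_ ?_ i
        · simp
        · intro j; simp
      rw [hcons, linearIndependent_finCons]
      refine ⟨hind z hDz, ?_⟩
      intro hmem
      rw [Submodule.mem_span_range_iff_exists_fun] at hmem
      obtain ⟨c, hc⟩ := hmem
      apply hay
      rw [← hc]
      simp [hy]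
  -- the derived functions annihilate
  have hder : ∀ a, Ann Z V k a → ∀ (w : E) (m : ℕ), Ann Z V k (derf g e w m a) := by
    intro a ha w m
    constructor
    · intro z hz
      unfold derf
      have h1 : AnalyticAt ℂ (fun z => Yf g e w z) z := Yf_analytic (hgan z hz) w
      have h2 : AnalyticAt ℂ (fun z => (Gm g e z).det) z := hDan z hz
      have h3 : AnalyticAt ℂ a z := ha.1 z hz
      exact (h2.mul (analytic_apply h3.fderiv h1)).sub
        ((analyticAt_const.mul h3).mul (analytic_apply h2.fderiv h1))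
    · intro z hz hzN
      unfold derf
      rw [ha.2 z hz hzN]
      by_cases hDz : (Gm g e z).det = 0
      · rw [hDz]; ring
      · rw [hmaxi a ha z hz hzN hDz _ (Yf_tangent g e w z)]; ring
  refine ⟨D, hDan, ⟨z0, hz0V, hz0N, by simp [hD, hG0]⟩, ?_⟩
  -- the local analysis
  intro zs hzs hcl hDzs
  have hgz : ∀ i, g i zs = 0 := fun i => (hgA i).closure hV hzs hcl
  -- the map `gg` and its derivative
  set gg : E → (Fin r → ℂ) := fun z i => g i z with hgg
  have hggan : ∀ z ∈ V, AnalyticAt ℂ gg z := by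
    intro z hz
    rw [analyticAt_pi_iff]
    exact hgan z hz
  set dg : E →L[ℂ] (Fin r → ℂ) := fderiv ℂ gg zs with hdg
  have hdgi : ∀ z ∈ V, ∀ v i, fderiv ℂ gg z v i = fderiv ℂ (g i) z v := by
    intro z hz v i
    have : HasFDerivAt gg (ContinuousLinearMap.pi fun i => fderiv ℂ (g i) z) z := by
      rw [hasFDerivAt_pi]
      exact fun i => (hgan z hz i).differentiableAt.hasFDerivAt
    rw [this.fderiv]
    rfl
  set Gs := Gm g e zs with hGs
  have hdet : IsUnit Gs.det := isUnit_iff_ne_zero.2 hDzs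
  -- the right inverse
  set R : (Fin r → ℂ) →ₗ[ℂ] E :=
    { toFun := fun c => ∑ j, (Gs⁻¹.mulVec c) j • e j
      map_add' := fun c d => by
        simp only [Matrix.mulVec_add, Pi.add_apply, add_smul, Finset.sum_add_distrib]
      map_smul' := fun t c => by
        simp only [Matrix.mulVec_smul, Pi.smul_apply, smul_eq_mul, RingHom.id_apply,
          Finset.smul_sum, mul_smul] } with hR
  have hRapp : ∀ c, R c = ∑ j, (Gs⁻¹.mulVec c) j • e j := fun c => rfl
  have hdgR : ∀ c, dg (R c) = c := by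
    intro c
    funext i
    rw [hdg, hdgi zs hzs, hRapp, map_sum]
    simp only [map_smul, smul_eq_mul]
    have h1 : Gs.mulVec (Gs⁻¹.mulVec c) = c := by
      rw [Matrix.mulVec_mulVec, Matrix.mul_nonsing_inv _ hdet, Matrix.one_mulVec]
    have h2 := congrFun h1 i
    rw [← h2]
    simp only [Matrix.mulVec, dotProduct]
    apply Finset.sum_congr rfl
    intro j _
    rw [mul_comm]
    rfl
  set Rc : (Fin r → ℂ) →L[ℂ] E := LinearMap.toContinuousLinearMap R with hRc
  have hRcapp : ∀ c, Rc c = R c := fun c => rfl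
  set Φ : E → E := fun z => (z - zs) + Rc (gg z - dg (z - zs)) with hΦ
  have hΦan : AnalyticAt ℂ Φ zs := by
    have h1 : AnalyticAt ℂ (fun z : E => z - zs) zs := analyticAt_id.sub analyticAt_const
    have h2 : AnalyticAt ℂ (fun z : E => gg z - dg (z - zs)) zs := by
      apply (hggan zs hzs).sub
      exact (dg.analyticAt _).comp h1
    exact h1.add ((Rc.analyticAt _).comp h2)
  have hΦ0 : Φ zs = 0 := by
    have : gg zs = 0 := by funext i; exact hgz i
    simp [hΦ, this]
  have hΦd : fderiv ℂ Φ zs = ContinuousLinearMap.id ℂ E := by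
    have h1 : HasFDerivAt (fun z : E => z - zs) (ContinuousLinearMap.id ℂ E) zs :=
      (hasFDerivAt_id zs).sub_const zs
    have h2 : HasFDerivAt (fun z : E => gg z - dg (z - zs)) (dg - dg.comp (ContinuousLinearMap.id ℂ E)) zs := by
      apply HasFDerivAt.sub
      · exact (hggan zs hzs).differentiableAt.hasFDerivAt
      · exact (dg.hasFDerivAt).comp zs h1
    have h3 : HasFDerivAt (fun z : E => Rc (gg z - dg (z - zs)))
        (Rc.comp (dg - dg.comp (ContinuousLinearMap.id ℂ E))) zs := (Rc.hasFDerivAt).comp zs h2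
    have h4 := (h1.add h3).fderiv
    have h5 : fderiv ℂ Φ zs = ContinuousLinearMap.id ℂ E +
        Rc.comp (dg - dg.comp (ContinuousLinearMap.id ℂ E)) := h4
    rw [h5]
    ext v
    simp
  obtain ⟨ψ, hψan, hψ0, hψr, hψinj⟩ := inv_exists Φ zs hΦan (by rw [hΦd]; exact fun x y h => h)
  rw [hΦ0] at hψan hψ0 hψr hψinj
  -- the kernel
  set T : Submodule ℂ E := LinearMap.ker (dg : E →ₗ[ℂ] (Fin r → ℂ)) with hT
  have hdim : k ≤ Module.finrank ℂ T := by
    have h1 := LinearMap.finrank_range_add_finrank_ker (dg : E →ₗ[ℂ] (Fin r → ℂ))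
    have hsj : Function.Surjective (dg : E →ₗ[ℂ] (Fin r → ℂ)) := fun c => ⟨R c, hdgR c⟩
    rw [LinearMap.range_eq_top.2 hsj, finrank_top] at h1
    simp only [Module.finrank_fintype_fun_eq_card, Fintype.card_fin] at h1
    obtain ⟨S, σ, hk, hσ, hσ0, hσinj, hσZ⟩ := hz0N
    have h2 := dim_bound (LinearMap.pi fun i => (fderiv ℂ (g i) z0 : E →ₗ[ℂ] ℂ)) hsurj0 S hk
      ((fderiv ℂ σ 0 : E →L[ℂ] E) : E →ₗ[ℂ] E) hσinj (by
        intro v hv
        funext i
        have hz0V' : σ 0 ∈ V := by rw [hσ0]; exact hz0V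
        have := InN.fderiv_zero hk hσ hσinj hσZ (g := g i) ((hgA i).1 _ hz0V')
          (by
            filter_upwards [hV.mem_nhds hz0V'] with x hx hxN
            exact (hgA i).2 x hx hxN) hv
        rw [hσ0] at this
        simpa using this)
    have h1' : r + Module.finrank ℂ T = Module.finrank ℂ E := h1
    omega
  -- a small ball where everything is fine
  obtain ⟨ρ, hρ, hball⟩ : ∃ ρ > 0, ∀ u ∈ ball (0 : E) ρ,
      AnalyticAt ℂ ψ u ∧ ψ u ∈ V ∧ D (ψ u) ≠ 0 ∧ Φ (ψ u) = u := by
    have h1 : ∀ᶠ u in 𝓝 (0 : E), ψ u ∈ V := by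
      have := hψan.continuousAt.eventually (by rw [hψ0]; exact hV.mem_nhds hzs)
      exact this
    have h2 : ∀ᶠ u in 𝓝 (0 : E), D (ψ u) ≠ 0 := by
      have hc : ContinuousAt (fun u => D (ψ u)) 0 := by
        have : ContinuousAt D (ψ 0) := by rw [hψ0]; exact (hDan zs hzs).continuousAt
        exact this.comp hψan.continuousAt
      apply hc.eventually_ne
      simp only [hψ0]
      exact hDzs
    obtain ⟨ρ, hρ, h⟩ := Metric.eventually_nhds_iff_ball.1
      (hψan.eventually_analyticAt.and (h1.and (h2.and hψr)))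
    exact ⟨ρ, hρ, fun u hu => ⟨(h u hu).1, (h u hu).2.1, (h u hu).2.2.1, (h u hu).2.2.2⟩⟩
  refine ⟨T, ψ, hdim, hψan, hψ0, hψinj, ?_⟩
  rw [Metric.eventually_nhds_iff_ball]
  refine ⟨ρ / 2, by positivity, ?_⟩
  intro w hw hwT
  have hwn : ‖w‖ < ρ / 2 := by simpa using hw
  have hdw : dg w = 0 := hwT
  -- the curve
  have hmem : ∀ t ∈ ball (0 : ℂ) 2, t • w ∈ ball (0 : E) ρ := by
    intro t ht
    have ht' : ‖t‖ < 2 := by simpa using ht
    rw [mem_ball_zero_iff, norm_smul]
    have := norm_nonneg t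
    nlinarith [norm_nonneg w]
  set zc : ℂ → E := fun t => ψ (t • w) with hzc
  -- `g = 0` along the curve
  have hg0 : ∀ t ∈ ball (0 : ℂ) 2, gg (zc t) = 0 := by
    intro t ht
    have h1 := (hball _ (hmem t ht)).2.2.2
    have h2 : dg (Φ (ψ (t • w))) = 0 := by rw [h1, map_smul, hdw, smul_zero]
    simp only [hΦ, map_add, hRcapp, hdgR] at h2
    have h3 : dg (ψ (t • w) - zs) + (gg (ψ (t • w)) - dg (ψ (t • w) - zs)) = gg (ψ (t • w)) := by
      abel
    rw [h3] at h2
    exact h2
  have hcd : ∀ t ∈ ball (0 : ℂ) 2, ∃ z' : E, HasDerivAt zc z' t ∧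
      D (zc t) • z' = Yf g e w (zc t) := by
    intro t ht
    have hψt : AnalyticAt ℂ ψ (t • w) := (hball _ (hmem t ht)).1
    have hVt : zc t ∈ V := (hball _ (hmem t ht)).2.1
    have hline : HasDerivAt (fun t : ℂ => t • w) w t := by
      simpa using (hasDerivAt_id t).smul_const w
    have hz' : HasDerivAt zc (fderiv ℂ ψ (t • w) w) t :=
      (hψt.differentiableAt.hasFDerivAt).comp_hasDerivAt t hline
    refine ⟨_, hz', ?_⟩
    set z' := fderiv ℂ ψ (t • w) w with hz'def
    -- tangency
    have htan : ∀ i, fderiv ℂ (g i) (zc t) z' = 0 := by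
      intro i
      have h1 : HasDerivAt (fun t => g i (zc t)) (fderiv ℂ (g i) (zc t) z') t :=
        ((hgan _ hVt i).differentiableAt.hasFDerivAt).comp_hasDerivAt t hz'
      have h2 : HasDerivAt (fun t => g i (zc t)) 0 t := by
        apply (hasDerivAt_const t (0 : ℂ)).congr_of_eventuallyEq
        filter_upwards [isOpen_ball.mem_nhds ht] with s hs
        exact congrFun (hg0 s hs) i
      exact h1.unique h2
    -- shape
    have hshape : z' - Rc (dg z') = w := by
      have h1 : HasDerivAt (fun t => (zc t - zs) + Rc (- dg (zc t - zs))) (z' + Rc (- dg z')) t := by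
        have a1 : HasDerivAt (fun t => zc t - zs) z' t := hz'.sub_const zs
        have a2 : HasDerivAt (fun t => - dg (zc t - zs)) (- dg z') t :=
          ((dg.hasFDerivAt).comp_hasDerivAt t a1).neg
        exact a1.add ((Rc.hasFDerivAt).comp_hasDerivAt t a2)
      have h2 : HasDerivAt (fun t => (zc t - zs) + Rc (- dg (zc t - zs))) w t := by
        apply hline.congr_of_eventuallyEq
        filter_upwards [isOpen_ball.mem_nhds ht] with s hs
        have b1 := (hball _ (hmem s hs)).2.2.2
        have b2 := hg0 s hs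
        simp only [hΦ] at b1
        rw [show ψ (s • w) = zc s from rfl, b2, zero_sub] at b1
        exact b1
      have h3 := h1.unique h2
      rw [map_neg] at h3
      rw [← h3]; abel
    apply Yf_eq g e w (zc t) z' (Gs⁻¹.mulVec (dg z'))
    · rw [← hRapp, ← hRcapp]
      nth_rewrite 1 [← hshape]
      abel
    · exact htan
  -- all derivatives vanish
  have hit : ∀ n : ℕ, ∀ a, Ann Z V k a → ∀ m : ℕ,
      iteratedDeriv n (fun t => a (zc t) / (D (zc t)) ^ m) 0 = 0 := by
    intro n
    induction n with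
    | zero =>
      intro a ha m
      have : zc 0 = zs := by simp [hzc, hψ0]
      rw [iteratedDeriv_zero, this, ha.closure hV hzs hcl]
      simp
    | succ n ih =>
      intro a ha m
      rw [iteratedDeriv_succ']
      have hev : deriv (fun t => a (zc t) / (D (zc t)) ^ m) =ᶠ[𝓝 0]
          fun t => derf g e w m a (zc t) / (D (zc t)) ^ (m + 2) := by
        filter_upwards [isOpen_ball.mem_nhds (mem_ball_self (x := (0 : ℂ)) (by norm_num : (0:ℝ) < 2))]
          with t ht
        obtain ⟨z', hz', hY⟩ := hcd t ht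
        have hVt : zc t ∈ V := (hball _ (hmem t ht)).2.1
        have hDt : D (zc t) ≠ 0 := (hball _ (hmem t ht)).2.2.1
        have h1 : HasDerivAt (fun t => a (zc t)) (fderiv ℂ a (zc t) z') t :=
          ((ha.1 _ hVt).differentiableAt.hasFDerivAt).comp_hasDerivAt t hz'
        have h2 : HasDerivAt (fun t => D (zc t)) (fderiv ℂ D (zc t) z') t :=
          ((hDan _ hVt).differentiableAt.hasFDerivAt).comp_hasDerivAt t hz'
        have h3 := (h1.div (h2.pow m) (by simpa using pow_ne_zero m hDt)).deriv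
        have h4 : deriv (fun t => a (zc t) / (D (zc t)) ^ m) t =
            (fderiv ℂ a (zc t) z' * D (zc t) ^ m -
              a (zc t) * (m * D (zc t) ^ (m - 1) * fderiv ℂ D (zc t) z')) / (D (zc t) ^ m) ^ 2 := h3
        rw [h4]
        have h5 : fderiv ℂ a (zc t) (Yf g e w (zc t)) = D (zc t) * fderiv ℂ a (zc t) z' := by
          rw [← hY, map_smul, smul_eq_mul]
        have h6 : fderiv ℂ D (zc t) (Yf g e w (zc t)) = D (zc t) * fderiv ℂ D (zc t) z' := by
          rw [← hY, map_smul, smul_eq_mul]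
        unfold derf
        rw [show (fun z => (Gm g e z).det) = D from rfl, show (Gm g e (zc t)).det = D (zc t) from rfl,
          h5, h6]
        rcases Nat.eq_zero_or_pos m with hm | hm
        · subst hm
          field_simp
          ring
        · obtain ⟨m', rfl⟩ : ∃ m', m = m' + 1 := ⟨m - 1, by omega⟩
          rw [Nat.add_sub_cancel]
          field_simp
          ring
      rw [hev.iteratedDeriv_eq n]
      exact ih _ (hder a ha w m) (m + 2)
  -- conclusion
  have hVw : zc 1 ∈ V := (hball _ (hmem 1 (by simp))).2.1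
  have hzc1 : zc 1 = ψ w := by simp [hzc]
  rw [← hzc1]
  rw [← hZ _ hVw]
  intro i
  have hfi : Ann Z V k (f i) := ⟨hf i, fun z hz hzN => (hZ z hz).2 hzN.mem i⟩
  have hdiff : DifferentiableOn ℂ (fun t => f i (zc t)) (ball 0 2) := by
    intro t ht
    obtain ⟨z', hz', -⟩ := hcd t ht
    have hVt : zc t ∈ V := (hball _ (hmem t ht)).2.1
    exact (((hf i _ hVt).differentiableAt.hasFDerivAt).comp_hasDerivAt t
      hz').differentiableAt.differentiableWithinAt
  have hts := Complex.taylorSeries_eq_on_ball' (c := 0) (r := 2) (z := 1) (by simp) hdiff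
  rw [← hts]
  have hz : ∀ n : ℕ, iteratedDeriv n (fun t => f i (zc t)) 0 = 0 := by
    intro n
    have := hit n (f i) hfi 0
    simpa using this
  simp [hz]

end Pool.Agent.U542.CH
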