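import Mathlib

/-!
# Analytic local inverses, and points of complex submanifolds contained in a set
-/

set_option autoImplicit false
set_option linter.unusedSectionVars false
open Metric Set Filter Topology

namespace Pool.Agent.U542.CH

variable {E : Type*} [NormedAddCommGroup E] [NormedSpace ℂ E] [FiniteDimensional ℂ E]

theorem analytic_apply {F G : Type*} [NormedAddCommGroup F] [NormedSpace ℂ F]
    [NormedAddCommGroup G] [NormedSpace ℂ G] {L : E → (F →L[ℂ] G)} {Y : E → F} {z : E}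
    (hL : AnalyticAt ℂ L z) (hY : AnalyticAt ℂ Y z) : AnalyticAt ℂ (fun z => L z (Y z)) z := by
  have h1 := (ContinuousLinearMap.id ℂ (F →L[ℂ] G)).analyticAt_bilinear (L z, Y z)
  exact AnalyticAt.comp (g := fun p : (F →L[ℂ] G) × F => (ContinuousLinearMap.id ℂ (F →L[ℂ] G)) p.1 p.2)
    (f := fun z => (L z, Y z)) (x := z) h1 (hL.prod hY)

/-- a continuous linear equivalence from an injective endomorphism -/
theorem exists_equiv (L : E →L[ℂ] E) (h : Function.Injective L) :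
    ∃ e : E ≃L[ℂ] E, (e : E →L[ℂ] E) = L := by
  have h' : Function.Injective (L : E →ₗ[ℂ] E) := h
  refine ⟨(LinearEquiv.ofInjectiveEndo (L : E →ₗ[ℂ] E) h').toContinuousLinearEquiv, ?_⟩
  ext x
  simp

theorem inv_exists (Φ : E → E) (z : E) (hΦ : AnalyticAt ℂ Φ z)
    (hinj : Function.Injective (fderiv ℂ Φ z)) :
    ∃ ψ : E → E, AnalyticAt ℂ ψ (Φ z) ∧ ψ (Φ z) = z ∧ (∀ᶠ w in 𝓝 (Φ z), Φ (ψ w) = w) ∧
      Function.Injective (fderiv ℂ ψ (Φ z)) := by
  have : CompleteSpace E := FiniteDimensional.complete ℂ E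
  obtain ⟨e, he⟩ := exists_equiv _ hinj
  have hs : HasStrictFDerivAt Φ (e : E →L[ℂ] E) z := by
    rw [he]; exact hΦ.hasStrictFDerivAt
  set f := hs.toOpenPartialHomeomorph Φ with hf
  have hfc : (f : E → E) = Φ := hs.toOpenPartialHomeomorph_coe
  have hz : z ∈ f.source := hs.mem_toOpenPartialHomeomorph_source
  have hfz : f z = Φ z := by rw [hfc]
  have h1 : AnalyticAt ℂ f.symm (f z) :=
    f.analyticAt_symm' (i := e) hz (by rw [hfc]; exact hΦ) (by rw [hfc, he])
  have h2 : f.symm (f z) = z := f.left_inv hz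
  have h3 : ∀ᶠ w in 𝓝 (f z), f (f.symm w) = w := f.eventually_right_inverse' hz
  rw [hfz] at h1 h2 h3
  rw [hfc] at h3
  refine ⟨f.symm, h1, h2, h3, ?_⟩
  have h4 : HasFDerivAt (fun w => Φ (f.symm w)) ((fderiv ℂ Φ z).comp (fderiv ℂ f.symm (Φ z))) (Φ z) := by
    have a1 : HasFDerivAt f.symm (fderiv ℂ f.symm (Φ z)) (Φ z) := h1.differentiableAt.hasFDerivAt
    have a2 : HasFDerivAt Φ (fderiv ℂ Φ z) (f.symm (Φ z)) := by
      rw [h2]; exact hΦ.differentiableAt.hasFDerivAt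
    exact a2.comp (Φ z) a1
  have h5 : HasFDerivAt (fun w => Φ (f.symm w)) (ContinuousLinearMap.id ℂ E) (Φ z) :=
    (hasFDerivAt_id (Φ z)).congr_of_eventuallyEq h3
  have h6 := h4.unique h5
  intro x y hxy
  have h7 : (fderiv ℂ Φ z).comp (fderiv ℂ f.symm (Φ z)) x =
      (fderiv ℂ Φ z).comp (fderiv ℂ f.symm (Φ z)) y := by
    simp only [ContinuousLinearMap.comp_apply, hxy]
  rw [h6] at h7
  simpa using h7

/-- `Z` contains, near `z`, a complex submanifold of dimension at least `k` through `z` -/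
def InN (Z : Set E) (k : ℕ) (z : E) : Prop :=
  ∃ (S : Submodule ℂ E) (σ : E → E), k ≤ Module.finrank ℂ S ∧ AnalyticAt ℂ σ 0 ∧ σ 0 = z ∧
    Function.Injective (fderiv ℂ σ 0) ∧ ∀ᶠ w in 𝓝 (0 : E), w ∈ S → σ w ∈ Z

theorem InN.mem {Z : Set E} {k : ℕ} {z : E} (h : InN Z k z) : z ∈ Z := by
  obtain ⟨S, σ, -, -, h0, -, h⟩ := h
  have := h.self_of_nhds (Submodule.zero_mem S)
  rwa [h0] at this

/-- injectivity of the derivative is an open condition -/
theorem inj_open (σ : E → E) (hσ : AnalyticAt ℂ σ 0) (hinj : Function.Injective (fderiv ℂ σ 0)) :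
    ∀ᶠ w in 𝓝 (0 : E), Function.Injective (fderiv ℂ σ w) := by
  have : CompleteSpace E := FiniteDimensional.complete ℂ E
  have hc : ContinuousAt (fun w => (fderiv ℂ σ w).det) 0 :=
    (ContinuousLinearMap.continuous_det.continuousAt).comp hσ.fderiv.continuousAt
  have key : ∀ L : E →L[ℂ] E, Function.Injective L ↔ L.det ≠ 0 := by
    intro L
    have h1 : Function.Injective L ↔ LinearMap.ker (L : E →ₗ[ℂ] E) = ⊥ := by
      rw [LinearMap.ker_eq_bot]; rfl
    rw [h1, ← LinearMap.isUnit_iff_ker_eq_bot, LinearMap.isUnit_iff_isUnit_det, isUnit_iff_ne_zero]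
  have h0 : (fderiv ℂ σ 0).det ≠ 0 := (key _).1 hinj
  filter_upwards [hc.eventually_ne h0] with w hw
  exact (key _).2 hw

/-- nearby points of the submanifold are of the same kind -/
theorem InN.near {Z : Set E} {k : ℕ} {S : Submodule ℂ E} {σ : E → E}
    (hk : k ≤ Module.finrank ℂ S) (hσ : AnalyticAt ℂ σ 0)
    (hinj : Function.Injective (fderiv ℂ σ 0)) (hZ : ∀ᶠ w in 𝓝 (0 : E), w ∈ S → σ w ∈ Z) :
    ∀ᶠ w in 𝓝 (0 : E), w ∈ S → InN Z k (σ w) := by
  filter_upwards [hσ.eventually_analyticAt, inj_open σ hσ hinj, hZ.eventually_nhds] with w h1 h2 h3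
  intro hw
  have hadd : AnalyticAt ℂ (fun u : E => w + u) 0 := analyticAt_const.add analyticAt_id
  have h1' : AnalyticAt ℂ σ ((fun u : E => w + u) 0) := by simpa using h1
  refine ⟨S, fun u => σ (w + u), hk, h1'.comp hadd, by simp, ?_, ?_⟩
  · have : fderiv ℂ (fun u => σ (w + u)) 0 = fderiv ℂ σ w := by
      rw [fderiv_comp_add_left]; simp
    rw [this]; exact h2
  · have ht : Tendsto (fun u : E => w + u) (𝓝 0) (𝓝 w) := by
      have : ContinuousAt (fun u : E => w + u) 0 := hadd.continuousAt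
      simpa [ContinuousAt] using this
    filter_upwards [ht.eventually h3] with u hu
    intro huS
    exact hu (S.add_mem hw huS)

/-- a holomorphic function vanishing on `N` near a point of `N` has vanishing derivative along the
submanifold -/
theorem InN.fderiv_zero {Z : Set E} {k : ℕ} {S : Submodule ℂ E} {σ : E → E}
    (hk : k ≤ Module.finrank ℂ S) (hσ : AnalyticAt ℂ σ 0)
    (hinj : Function.Injective (fderiv ℂ σ 0)) (hZ : ∀ᶠ w in 𝓝 (0 : E), w ∈ S → σ w ∈ Z)
    {g : E → ℂ} (hg : AnalyticAt ℂ g (σ 0)) (hg0 : ∀ᶠ x in 𝓝 (σ 0), InN Z k x → g x = 0)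
    {v : E} (hv : v ∈ S) : fderiv ℂ g (σ 0) (fderiv ℂ σ 0 v) = 0 := by
  have h1 : ∀ᶠ w in 𝓝 (0 : E), w ∈ S → g (σ w) = 0 := by
    filter_upwards [InN.near hk hσ hinj hZ, hσ.continuousAt.eventually hg0] with w a1 a2 hw
    exact a2 (a1 hw)
  have hline : HasDerivAt (fun t : ℂ => t • v) v 0 := by
    simpa using (hasDerivAt_id (0 : ℂ)).smul_const v
  have h2 : ∀ᶠ t in 𝓝 (0 : ℂ), g (σ (t • v)) = 0 := by
    have ht : Tendsto (fun t : ℂ => t • v) (𝓝 0) (𝓝 (0 : E)) := by
      have := hline.continuousAt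
      simpa [ContinuousAt] using this
    filter_upwards [ht.eventually h1] with t a
    exact a (S.smul_mem t hv)
  have h3 : HasDerivAt (fun t : ℂ => g (σ (t • v))) (fderiv ℂ g (σ 0) (fderiv ℂ σ 0 v)) 0 := by
    have a1 : HasDerivAt (fun t : ℂ => σ (t • v)) (fderiv ℂ σ 0 v) 0 := by
      have b : HasFDerivAt σ (fderiv ℂ σ 0) ((0 : ℂ) • v) := by
        rw [zero_smul]; exact hσ.differentiableAt.hasFDerivAt
      exact b.comp_hasDerivAt (0 : ℂ) hline
    have b : HasFDerivAt g (fderiv ℂ g (σ 0)) (σ ((0 : ℂ) • v)) := by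
      rw [zero_smul]; exact hg.differentiableAt.hasFDerivAt
    exact b.comp_hasDerivAt (0 : ℂ) a1
  have h4 : HasDerivAt (fun t : ℂ => g (σ (t • v))) 0 0 :=
    (hasDerivAt_const (0 : ℂ) (0 : ℂ)).congr_of_eventuallyEq h2
  exact h3.unique h4

end Pool.Agent.U542.CH
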