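import Pool.Agent.U542.CH.Inv

/-!
# A holomorphic function singling out good points of an analytic set

`good_function`: let `Z ∩ V` be the zero set of finitely many holomorphic functions on the open set
`V` and `N` the set of points through which `Z` contains a `k`-dimensional complex submanifold.  If
`N ∩ V` is not empty, there is a holomorphic function `D` on `V`, not identically zero on `N ∩ V`,
such that all points of `closure N ∩ V` with `D ≠ 0` belong to `N`.
-/

set_option autoImplicit false
set_option linter.unusedSectionVars false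
open Metric Set Filter Topology

namespace Pool.Agent.U542.CH

variable {E : Type*} [NormedAddCommGroup E] [NormedSpace ℂ E] [FiniteDimensional ℂ E]

/-- matrix of derivatives -/
noncomputable def Gm {r : ℕ} (g : Fin r → E → ℂ) (e : Fin r → E) (z : E) :
    Matrix (Fin r) (Fin r) ℂ := Matrix.of fun i j => fderiv ℂ (g i) z (e j)

/-- tangent vector field -/
noncomputable def Yf {r : ℕ} (g : Fin r → E → ℂ) (e : Fin r → E) (w z : E) : E :=
  (Gm g e z).det • w -
    ∑ j, ((Gm g e z).adjugate.mulVec (fun i => fderiv ℂ (g i) z w)) j • e j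

theorem Yf_tangent {r : ℕ} (g : Fin r → E → ℂ) (e : Fin r → E) (w z : E) (i : Fin r) :
    fderiv ℂ (g i) z (Yf g e w z) = 0 := by
  set b : Fin r → ℂ := fun i => fderiv ℂ (g i) z w with hb
  have h1 : (Gm g e z).mulVec ((Gm g e z).adjugate.mulVec b) = (Gm g e z).det • b := by
    rw [Matrix.mulVec_mulVec, Matrix.mul_adjugate, Matrix.smul_mulVec, Matrix.one_mulVec]
  have h2 := congrFun h1 i
  simp only [Matrix.mulVec, dotProduct, Pi.smul_apply, smul_eq_mul] at h2
  unfold Yf
  rw [map_sub, map_smul, map_sum]
  simp only [map_smul, smul_eq_mul]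
  rw [← hb]
  have h3 : ∑ j, ((Gm g e z).adjugate.mulVec b) j * fderiv ℂ (g i) z (e j) =
      (Gm g e z).det * b i := by
    rw [← h2]
    apply Finset.sum_congr rfl
    intro j _
    rw [mul_comm]
    rfl
  rw [h3]
  simp [hb]

/-- a tangent vector of the right shape is proportional to the field -/
theorem Yf_eq {r : ℕ} (g : Fin r → E → ℂ) (e : Fin r → E) (w z z' : E) (s : Fin r → ℂ)
    (hz' : z' = w + ∑ j, s j • e j) (ht : ∀ i, fderiv ℂ (g i) z z' = 0) :
    (Gm g e z).det • z' = Yf g e w z := by
  set b : Fin r → ℂ := fun i => fderiv ℂ (g i) z w with hb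
  have h1 : (Gm g e z).mulVec s = -b := by
    funext i
    have := ht i
    rw [hz', map_add, map_sum] at this
    simp only [map_smul, smul_eq_mul] at this
    have h2 : (Gm g e z).mulVec s i = ∑ j, s j * fderiv ℂ (g i) z (e j) := by
      simp only [Matrix.mulVec, dotProduct, Gm, Matrix.of_apply]
      exact Finset.sum_congr rfl fun j _ => mul_comm _ _
    rw [h2, Pi.neg_apply, hb]
    linear_combination this
  have h3 : (Gm g e z).det • s = - (Gm g e z).adjugate.mulVec b := by
    have := congrArg (fun v => (Gm g e z).adjugate.mulVec v) h1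
    simp only [Matrix.mulVec_mulVec, Matrix.adjugate_mul, Matrix.smul_mulVec,
      Matrix.one_mulVec, Matrix.mulVec_neg] at this
    exact this
  unfold Yf
  rw [hz', smul_add, Finset.smul_sum, ← hb, sub_eq_add_neg, ← Finset.sum_neg_distrib]
  congr 1
  apply Finset.sum_congr rfl
  intro j _
  have h4 := congrFun h3 j
  simp only [Pi.smul_apply, smul_eq_mul, Pi.neg_apply] at h4
  rw [smul_smul, h4, neg_smul]

section analytic

variable {r : ℕ} {g : Fin r → E → ℂ} {e : Fin r → E} {z : E}

theorem Gm_entry (hg : ∀ i, AnalyticAt ℂ (g i) z) (i j : Fin r) :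
    AnalyticAt ℂ (fun z => Gm g e z i j) z := by
  have : CompleteSpace E := FiniteDimensional.complete ℂ E
  exact analytic_apply (hg i).fderiv analyticAt_const

theorem det_analytic {M : E → Matrix (Fin r) (Fin r) ℂ}
    (hM : ∀ i j, AnalyticAt ℂ (fun z => M z i j) z) : AnalyticAt ℂ (fun z => (M z).det) z := by
  have : (fun z => (M z).det) = fun z => ∑ σ : Equiv.Perm (Fin r),
      ((Equiv.Perm.sign σ : ℤ) : ℂ) * ∏ i, M z (σ i) i := by
    funext z; exact Matrix.det_apply' (M z)
  rw [this]
  apply Finset.analyticAt_fun_sum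
  intro σ _
  apply analyticAt_const.mul
  apply Finset.analyticAt_fun_prod
  intro i _
  exact hM _ _

theorem adj_analytic {M : E → Matrix (Fin r) (Fin r) ℂ}
    (hM : ∀ i j, AnalyticAt ℂ (fun z => M z i j) z) (i j : Fin r) :
    AnalyticAt ℂ (fun z => (M z).adjugate i j) z := by
  have : (fun z => (M z).adjugate i j) = fun z => ((M z).updateRow j (Pi.single i 1)).det := by
    funext z; exact Matrix.adjugate_apply (M z) i j
  rw [this]
  apply det_analytic
  intro a b
  by_cases h : a = j
  · subst h
    simp only [Matrix.updateRow_self]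
    exact analyticAt_const
  · have : (fun z => (M z).updateRow j (Pi.single i 1) a b) = fun z => M z a b := by
      funext z; rw [Matrix.updateRow_ne h]
    rw [this]
    exact hM a b

theorem Yf_analytic (hg : ∀ i, AnalyticAt ℂ (g i) z) (w : E) :
    AnalyticAt ℂ (fun z => Yf g e w z) z := by
  have : CompleteSpace E := FiniteDimensional.complete ℂ E
  unfold Yf
  apply AnalyticAt.sub
  · exact (det_analytic (Gm_entry hg)).smul analyticAt_const
  · apply Finset.analyticAt_fun_sum
    intro j _
    apply AnalyticAt.smul _ analyticAt_const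
    simp only [Matrix.mulVec, dotProduct]
    apply Finset.analyticAt_fun_sum
    intro i _
    exact (adj_analytic (Gm_entry hg) j i).mul (analytic_apply (hg i).fderiv analyticAt_const)

end analytic

/-- independent functionals are jointly surjective -/
theorem surj_of_indep {r : ℕ} (L : Fin r → E →L[ℂ] ℂ) (h : LinearIndependent ℂ L) :
    Function.Surjective (LinearMap.pi fun i => (L i : E →ₗ[ℂ] ℂ)) := by
  rw [← LinearMap.range_eq_top]
  by_contra hne
  obtain ⟨f, hf0, hf⟩ := Submodule.exists_le_ker_of_lt_top _ (lt_top_iff_ne_top.2 hne)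
  have h1 : ∀ v, ∑ i, f (Pi.single i 1) * L i v = 0 := by
    intro v
    have h2 : f (fun i => L i v) = 0 := hf ⟨v, rfl⟩
    have h3 : (fun i => L i v) = ∑ i, (L i v) • (Pi.single i (1 : ℂ) : Fin r → ℂ) := by
      funext j
      simp [Finset.sum_apply, Pi.single_apply]
    rw [h3, map_sum] at h2
    simp only [map_smul, smul_eq_mul] at h2
    rw [← h2]
    exact Finset.sum_congr rfl fun i _ => mul_comm _ _
  have h4 : ∑ i, f (Pi.single i 1) • L i = 0 := by
    ext v
    simpa using h1 v
  have h5 := Fintype.linearIndependent_iff.1 h _ h4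
  apply hf0
  ext i
  simp [h5 i]

/-- the dimension bound -/
theorem dim_bound {r k : ℕ} (L : E →ₗ[ℂ] (Fin r → ℂ)) (hL : Function.Surjective L)
    (S : Submodule ℂ E) (hk : k ≤ Module.finrank ℂ S) (A : E →ₗ[ℂ] E) (hA : Function.Injective A)
    (hS : ∀ v ∈ S, L (A v) = 0) : k + r ≤ Module.finrank ℂ E := by
  have h1 := LinearMap.finrank_range_add_finrank_ker L
  rw [LinearMap.range_eq_top.2 hL, finrank_top] at h1
  simp only [Module.finrank_fintype_fun_eq_card, Fintype.card_fin] at h1
  have h2 : Submodule.map A S ≤ LinearMap.ker L := by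
    rintro _ ⟨v, hv, rfl⟩
    exact hS v hv
  have h3 := Submodule.finrank_mono h2
  rw [← (Submodule.equivMapOfInjective A hA S).finrank_eq] at h3
  omega

end Pool.Agent.U542.CH
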