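import Pool.Agent.U542.CH.Sum
import Pool.Agent.U542.CH.Good

/-!
# The maximum principle at a point of `N`
-/

set_option autoImplicit false
set_option linter.unusedSectionVars false
open Metric Set Filter Topology

namespace Pool.Agent.U542.CH

variable {E : Type*} [NormedAddCommGroup E] [InnerProductSpace ℂ E] [FiniteDimensional ℂ E]
variable {ι : Type*}

theorem A4_sq_at (f : ℂ → E) (hf : AnalyticAt ℂ f 0) :
    ∃ K ρ : ℝ, 0 ≤ K ∧ 0 < ρ ∧ ∀ t : ℂ, ‖t‖ < ρ →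
      A4 (fun t => ‖f t‖ ^ 2) t ≤ 4 * ‖f 0‖ ^ 2 + 4 * ‖t‖ ^ 2 * ‖deriv f 0‖ ^ 2 + K * ‖t‖ ^ 3 := by
  have : CompleteSpace E := FiniteDimensional.complete ℂ E
  obtain ⟨ρ, M, hρ, hM, hd, hb⟩ : ∃ ρ M : ℝ, 0 < ρ ∧ 0 ≤ M ∧ DifferentiableOn ℂ f (ball 0 ρ) ∧
      ∀ z ∈ ball (0 : ℂ) ρ, ‖f z‖ ≤ M := by
    have h1 : ∀ᶠ z in nhds (0 : ℂ), DifferentiableAt ℂ f z :=
      hf.eventually_analyticAt.mono fun z hz => hz.differentiableAt
    have h2 : ∀ᶠ z in nhds (0 : ℂ), ‖f z‖ < ‖f 0‖ + 1 :=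
      hf.continuousAt.norm.eventually_lt continuousAt_const (by simp)
    obtain ⟨ρ, hρ, hball⟩ := Metric.eventually_nhds_iff_ball.1 (h1.and h2)
    exact ⟨ρ, ‖f 0‖ + 1, hρ, by positivity,
      fun z hz => (hball z hz).1.differentiableWithinAt, fun z hz => (hball z hz).2.le⟩
  obtain ⟨K, hK, hS⟩ := A4_sq (X := E) ρ M hρ hM
  refine ⟨K, min ρ 1, hK, lt_min hρ one_pos, ?_⟩
  intro t ht
  have h1 := hS f hd hb t (by simpa using lt_of_lt_of_le ht (min_le_left _ _))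
    (ht.le.trans (min_le_right _ _))
  have := (abs_le.1 h1).2
  linarith

/-- the contradiction at a point of `N` -/
theorem local_contra {β β' : ι → E → E} (h : AutFam β β') {k : ℕ} (hk : 0 < k)
    (hs : Summable fun i => (1 - ‖β i 0‖ ^ 2) ^ k) (i0 : ι)
    (hi0 : ∀ z ∈ ball (0 : E) 1, β i0 z = z) {Z : Set E} {zs y : E} (hzs : ‖zs‖ < 1)
    (hN : InN Z k zs) {D : E → ℂ} (hD : AnalyticAt ℂ D zs) (hD0 : D zs ≠ 0) {ε lam : ℝ}
    (hε : 0 ≤ ε) (hεs : 4 * ε < k * (1 - ‖zs‖ ^ 2) ^ (k + 1)) (hlam : 0 < lam)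
    (hineq : ∀ᶠ z in 𝓝 zs, InN Z k z →
      ‖D z‖ * Real.exp (-(lam * (FF β k z + ε * ‖z - y‖ ^ 2))) ≤
        ‖D zs‖ * Real.exp (-(lam * (FF β k zs + ε * ‖zs - y‖ ^ 2)))) : False := by
  classical
  have hcomp : CompleteSpace E := FiniteDimensional.complete ℂ E
  obtain ⟨S, σ, hkS, hσ, hσ0, hσinj, hσZ⟩ := hN
  have hnear := InN.near hkS hσ hσinj hσZ
  -- the transported map
  set α : E → E := phi zs with hα
  have hαan : AnalyticOnNhd ℂ α (ball (0 : E) 1) := phi_analytic hzs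
  have hzsb : zs ∈ ball (0 : E) 1 := by simpa using hzs
  have h0b : (0 : E) ∈ ball (0 : E) 1 := by simp
  have hαzs : α zs = 0 := phi_self hzs
  have hα0 : α 0 = zs := phi_zero
  have hαα : ∀ z ∈ ball (0 : E) 1, α (α z) = z := fun z hz => phi_phi hzs (by simpa using hz)
  -- derivative of `α` at `zs` is injective
  have hαinj : Function.Injective (fderiv ℂ α zs) := by
    have h1 : HasFDerivAt (fun z => α (α z)) ((fderiv ℂ α 0).comp (fderiv ℂ α zs)) zs := by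
      have a1 : HasFDerivAt α (fderiv ℂ α zs) zs := (hαan zs hzsb).differentiableAt.hasFDerivAt
      have a2 : HasFDerivAt α (fderiv ℂ α 0) (α zs) := by
        rw [hαzs]; exact (hαan 0 h0b).differentiableAt.hasFDerivAt
      exact a2.comp zs a1
    have h2 : HasFDerivAt (fun z => α (α z)) (ContinuousLinearMap.id ℂ E) zs := by
      apply (hasFDerivAt_id zs).congr_of_eventuallyEq
      filter_upwards [isOpen_ball.mem_nhds hzsb] with z hz
      exact hαα z hz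
    have h3 := h1.unique h2
    intro x y' hxy
    have h4 : (fderiv ℂ α 0).comp (fderiv ℂ α zs) x = (fderiv ℂ α 0).comp (fderiv ℂ α zs) y' := by
      simp only [ContinuousLinearMap.comp_apply, hxy]
    rw [h3] at h4
    simpa using h4
  set A : E →L[ℂ] E := (fderiv ℂ α zs).comp (fderiv ℂ σ 0) with hA
  have hAinj : Function.Injective (A : E →ₗ[ℂ] E) := by
    intro x y' hxy
    exact hσinj (hαinj hxy)
  -- the orthonormal family
  set T : Submodule ℂ E := S.map (A : E →ₗ[ℂ] E) with hT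
  have hkT : k ≤ Module.finrank ℂ T := by
    have := (Submodule.equivMapOfInjective (A : E →ₗ[ℂ] E) hAinj S).finrank_eq
    rw [hT, ← this]; exact hkS
  set bT := stdOrthonormalBasis ℂ T with hbT
  set u : Fin k → E := fun j => (bT (Fin.castLE hkT j) : E) with hu
  have hon : Orthonormal ℂ u := by
    have h1 : Orthonormal ℂ (fun j => (bT j : E)) :=
      bT.orthonormal.comp_linearIsometry T.subtypeₗᵢ
    exact h1.comp _ (Fin.castLE_injective hkT)
  have hw : ∀ j, ∃ w ∈ S, A w = u j := by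
    intro j
    have : u j ∈ T := (bT (Fin.castLE hkT j)).2
    rw [hT, Submodule.mem_map] at this
    exact this
  choose w hwS hwA using hw
  -- the discs
  have hline : ∀ j, AnalyticAt ℂ (fun t : ℂ => t • w j) 0 := fun j =>
    analyticAt_id.smul analyticAt_const
  have hσj : ∀ j, AnalyticAt ℂ (fun t : ℂ => σ (t • w j)) 0 := fun j => by
    have h1 : AnalyticAt ℂ σ ((fun t : ℂ => t • w j) 0) := by simpa using hσ
    exact AnalyticAt.comp (g := σ) (f := fun t : ℂ => t • w j) (x := (0 : ℂ)) h1 (hline j)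
  have hσjd : ∀ j, HasDerivAt (fun t : ℂ => σ (t • w j)) (fderiv ℂ σ 0 (w j)) 0 := fun j => by
    have hl : HasDerivAt (fun t : ℂ => t • w j) (w j) 0 := by
      simpa using (hasDerivAt_id (0 : ℂ)).smul_const (w j)
    have b : HasFDerivAt σ (fderiv ℂ σ 0) ((0 : ℂ) • w j) := by
      rw [zero_smul]; exact hσ.differentiableAt.hasFDerivAt
    exact b.comp_hasDerivAt (0 : ℂ) hl
  set δ : Fin k → ℂ → E := fun j t => α (σ (t • w j)) with hδdef
  have hδ : ∀ j, AnalyticAt ℂ (δ j) 0 := fun j => by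
    have h1 : AnalyticAt ℂ α ((fun t : ℂ => σ (t • w j)) 0) := by
      simp only [zero_smul, hσ0]; exact hαan zs hzsb
    exact AnalyticAt.comp (g := α) (f := fun t : ℂ => σ (t • w j)) (x := (0 : ℂ)) h1 (hσj j)
  have hδ0 : ∀ j, δ j 0 = 0 := fun j => by simp [hδdef, hσ0, hαzs]
  have hδd : ∀ j, deriv (δ j) 0 = u j := fun j => by
    have a2 : HasFDerivAt α (fderiv ℂ α zs) (σ ((0 : ℂ) • w j)) := by
      rw [zero_smul, hσ0]; exact (hαan zs hzsb).differentiableAt.hasFDerivAt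
    have := (a2.comp_hasDerivAt (0 : ℂ) (hσjd j)).deriv
    rw [← hwA j]
    exact this
  have hon' : Orthonormal ℂ fun j => deriv (δ j) 0 := by
    have : (fun j => deriv (δ j) 0) = u := funext hδd
    rw [this]; exact hon
  obtain ⟨ρ1, C1, hρ1, hC1, hF⟩ := F_expansion h hs i0 hi0 hzs δ hδ hδ0 hon'
  -- `α δ_j = σ`
  have hαδ : ∀ j, ∀ᶠ t in 𝓝 (0 : ℂ), α (δ j t) = σ (t • w j) := by
    intro j
    have h1 : ∀ᶠ t in 𝓝 (0 : ℂ), σ (t • w j) ∈ ball (0 : E) 1 := by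
      have hc : ContinuousAt (fun t : ℂ => σ (t • w j)) 0 := (hσj j).continuousAt
      apply hc.eventually
      simp only [zero_smul, hσ0]
      exact isOpen_ball.mem_nhds hzsb
    filter_upwards [h1] with t ht
    exact hαα _ ht
  -- derivative of `σ (t w_j)`
  have hvj : ∀ j, ‖deriv (fun t : ℂ => σ (t • w j) - y) 0‖ ≤ 2 := by
    intro j
    have h1 : HasDerivAt (fun t : ℂ => α (δ j t)) (fderiv ℂ α 0 (u j)) 0 := by
      have a1 : HasDerivAt (δ j) (u j) 0 := by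
        rw [← hδd j]; exact (hδ j).differentiableAt.hasDerivAt
      have a2 : HasFDerivAt α (fderiv ℂ α 0) (δ j 0) := by
        rw [hδ0 j]; exact (hαan 0 h0b).differentiableAt.hasFDerivAt
      exact a2.comp_hasDerivAt (0 : ℂ) a1
    have h2 : HasDerivAt (fun t : ℂ => σ (t • w j)) (fderiv ℂ α 0 (u j)) 0 :=
      h1.congr_of_eventuallyEq ((hαδ j).mono fun t ht => ht.symm)
    rw [(h2.sub_const y).deriv]
    have h3 : ‖fderiv ℂ α 0‖ ≤ 2 / 1 := by
      apply Complex.norm_fderiv_le_div_of_mapsTo_ball (hαan.differentiableOn) _ one_pos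
      intro z hz
      have hz' : ‖z‖ < 1 := by simpa using hz
      have a1 : ‖α z‖ < 1 := phi_lt hzs hz'
      rw [hα0, mem_closedBall, dist_eq_norm]
      have := norm_sub_le (α z) zs
      linarith
    calc ‖fderiv ℂ α 0 (u j)‖ ≤ ‖fderiv ℂ α 0‖ * ‖u j‖ := ContinuousLinearMap.le_opNorm _ _
      _ ≤ 2 / 1 * 1 := by
        rw [hon.1 j]
        exact mul_le_mul_of_nonneg_right h3 (by norm_num)
      _ = 2 := by norm_num
  choose K2 ρ2 hK2 hρ2 hSq using fun j => A4_sq_at (fun t : ℂ => σ (t • w j) - y)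
    ((hσj j).sub analyticAt_const)
  -- logarithms
  set ℓ : Fin k → ℂ → ℂ := fun j t => Complex.log (D (σ (t • w j)) / D zs) with hℓ
  have hDσ : ∀ j, AnalyticAt ℂ (fun t : ℂ => D (σ (t • w j)) / D zs) 0 := fun j => by
    have h1 : AnalyticAt ℂ D ((fun t : ℂ => σ (t • w j)) 0) := by
      simp only [zero_smul, hσ0]; exact hD
    exact (AnalyticAt.comp (g := D) (f := fun t : ℂ => σ (t • w j)) (x := (0 : ℂ)) h1
      (hσj j)).div_const
  have hDσ0 : ∀ j, D (σ ((0 : ℂ) • w j)) / D zs = 1 := fun j => by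
    rw [zero_smul, hσ0, div_self hD0]
  have hℓan : ∀ j, AnalyticAt ℂ (ℓ j) 0 := fun j => by
    apply (hDσ j).clog
    rw [hDσ0 j]
    exact Complex.one_mem_slitPlane
  have hℓ0 : ∀ j, ℓ j 0 = 0 := fun j => by
    simp only [hℓ, hDσ0 j, Complex.log_one]
  choose K3 ρ3 hK3 hρ3 hL using fun j => A4_re (ℓ j) (hℓan j)
  -- pointwise inequality
  have hpt : ∀ j, ∀ᶠ t in 𝓝 (0 : ℂ), (ℓ j t).re ≤
      lam * (FF β k (phi zs (δ j t)) + ε * ‖σ (t • w j) - y‖ ^ 2) -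
        lam * (FF β k zs + ε * ‖zs - y‖ ^ 2) := by
    intro j
    have ht0 : Tendsto (fun t : ℂ => t • w j) (𝓝 0) (𝓝 (0 : E)) := by
      have := (hline j).continuousAt
      simpa [ContinuousAt] using this
    have ht1 : Tendsto (fun t : ℂ => σ (t • w j)) (𝓝 0) (𝓝 zs) := by
      have := (hσj j).continuousAt
      simpa [ContinuousAt, hσ0] using this
    have hne : ∀ᶠ t in 𝓝 (0 : ℂ), D (σ (t • w j)) ≠ 0 := by
      have := ht1.eventually (hD.continuousAt.eventually_ne hD0)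
      exact this
    filter_upwards [hαδ j, ht0.eventually hnear, ht1.eventually hineq, hne] with t a1 a2 a3 a4
    have a5 := a3 (a2 (S.smul_mem t (hwS j)))
    have a6 : phi zs (δ j t) = σ (t • w j) := a1
    rw [a6]
    have hDn : 0 < ‖D zs‖ := norm_pos_iff.2 hD0
    have hDn' : 0 < ‖D (σ (t • w j))‖ := norm_pos_iff.2 a4
    have a7 : (ℓ j t).re = Real.log ‖D (σ (t • w j))‖ - Real.log ‖D zs‖ := by
      simp only [hℓ]
      rw [Complex.log_re, norm_div, Real.log_div hDn'.ne' hDn.ne']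
    have a8 := Real.log_le_log (by positivity) a5
    rw [Real.log_mul hDn'.ne' (Real.exp_pos _).ne', Real.log_mul hDn.ne' (Real.exp_pos _).ne',
      Real.log_exp, Real.log_exp] at a8
    rw [a7]
    linarith
  -- choose a small `t`
  have hall : ∀ᶠ s in 𝓝 (0 : ℂ), ∀ j, (ℓ j s).re ≤
      lam * (FF β k (phi zs (δ j s)) + ε * ‖σ (s • w j) - y‖ ^ 2) -
        lam * (FF β k zs + ε * ‖zs - y‖ ^ 2) := eventually_all.2 hpt
  obtain ⟨ρ4, hρ4, hb4⟩ := Metric.eventually_nhds_iff_ball.1 hall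
  obtain ⟨ρm, hρm, hρle⟩ : ∃ ρm : ℝ, 0 < ρm ∧ ∀ j, ρm ≤ ρ2 j ∧ ρm ≤ ρ3 j := by
    have hne : Nonempty (Fin k) := ⟨⟨0, hk⟩⟩
    refine ⟨Finset.univ.inf' Finset.univ_nonempty (fun j => min (ρ2 j) (ρ3 j)), ?_, fun j => ?_⟩
    · rw [Finset.lt_inf'_iff]
      exact fun j _ => lt_min (hρ2 j) (hρ3 j)
    · have := Finset.inf'_le (fun j => min (ρ2 j) (ρ3 j)) (Finset.mem_univ j)
      exact ⟨this.trans (min_le_left _ _), this.trans (min_le_right _ _)⟩
  set κ : ℝ := lam * (4 * k * (k * (1 - ‖zs‖ ^ 2) ^ (k + 1) - 4 * ε)) with hκ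
  have hkR : (0 : ℝ) < k := by exact_mod_cast hk
  have hκ0 : 0 < κ := by
    rw [hκ]
    have : 0 < k * (1 - ‖zs‖ ^ 2) ^ (k + 1) - 4 * ε := by linarith
    positivity
  set CC : ℝ := lam * (C1 + ε * ∑ j, K2 j) + ∑ j, K3 j with hCC
  have hCC0 : 0 ≤ CC := by
    have a1 : 0 ≤ ∑ j, K2 j := Finset.sum_nonneg fun j _ => hK2 j
    have a2 : 0 ≤ ∑ j, K3 j := Finset.sum_nonneg fun j _ => hK3 j
    rw [hCC]; positivity
  obtain ⟨τ, hτ0, hτ⟩ : ∃ τ : ℝ, 0 < τ ∧ τ < min (min ρ1 ρ4) (min ρm (κ / (CC + 1))) :=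
    exists_between (by
      refine lt_min (lt_min hρ1 hρ4) (lt_min hρm ?_)
      positivity)
  have hτ1 : τ < ρ1 := hτ.trans_le ((min_le_left _ _).trans (min_le_left _ _))
  have hτ4 : τ < ρ4 := hτ.trans_le ((min_le_left _ _).trans (min_le_right _ _))
  have hτm : τ < ρm := hτ.trans_le ((min_le_right _ _).trans (min_le_left _ _))
  have hτκ : τ < κ / (CC + 1) := hτ.trans_le ((min_le_right _ _).trans (min_le_right _ _))
  have hnt : ‖(τ : ℂ)‖ = τ := by rw [Complex.norm_real, Real.norm_eq_abs, abs_of_pos hτ0]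
  have e1 := hF (τ : ℂ) (by rw [mem_ball_zero_iff, hnt]; exact hτ1)
  rw [hnt] at e1
  have e2 : ∀ j, A4 (fun t : ℂ => ‖σ (t • w j) - y‖ ^ 2) τ ≤
      4 * ‖zs - y‖ ^ 2 + 16 * τ ^ 2 + K2 j * τ ^ 3 := by
    intro j
    have a1 := hSq j (τ : ℂ) (by rw [hnt]; exact hτm.trans_le (hρle j).1)
    rw [hnt] at a1
    simp only [zero_smul, hσ0] at a1
    have a2 : ‖deriv (fun t : ℂ => σ (t • w j) - y) 0‖ ^ 2 ≤ 4 := by
      have := pow_le_pow_left₀ (norm_nonneg _) (hvj j) 2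
      linarith
    have a3 := mul_le_mul_of_nonneg_left a2 (by positivity : 0 ≤ 4 * τ ^ 2)
    linarith
  have e3 : ∀ j, - (K3 j * τ ^ 3) ≤ A4 (fun t => (ℓ j t).re) τ := by
    intro j
    have a1 := hL j (τ : ℂ) (by rw [hnt]; exact hτm.trans_le (hρle j).2)
    rw [hnt, hℓ0 j, Complex.zero_re, mul_zero, sub_zero] at a1
    exact (abs_le.1 a1).1
  have hmem4 : ∀ s : ℂ, ‖s‖ = τ → s ∈ ball (0 : ℂ) ρ4 := by
    intro s hs'
    rw [mem_ball_zero_iff, hs']; exact hτ4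
  have e4 : ∀ j, A4 (fun t => (ℓ j t).re) τ ≤ lam * A4 (fun t => FF β k (phi zs (δ j t))) τ +
      lam * ε * A4 (fun t : ℂ => ‖σ (t • w j) - y‖ ^ 2) τ -
        4 * (lam * (FF β k zs + ε * ‖zs - y‖ ^ 2)) := by
    intro j
    have b1 := hb4 (τ : ℂ) (hmem4 _ hnt) j
    have b2 := hb4 (-(τ : ℂ)) (hmem4 _ (by rw [norm_neg, hnt])) j
    have b3 := hb4 (Complex.I * (τ : ℂ)) (hmem4 _ (by rw [norm_mul, Complex.norm_I, one_mul, hnt])) j
    have b4 := hb4 (-(Complex.I * (τ : ℂ)))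
      (hmem4 _ (by rw [norm_neg, norm_mul, Complex.norm_I, one_mul, hnt])) j
    unfold A4
    linarith
  have e5 : - ((∑ j, K3 j) * τ ^ 3) ≤ lam * (∑ j, A4 (fun t => FF β k (phi zs (δ j t))) τ) +
      lam * ε * (∑ j, A4 (fun t : ℂ => ‖σ (t • w j) - y‖ ^ 2) τ) -
        k * (4 * (lam * (FF β k zs + ε * ‖zs - y‖ ^ 2))) := by
    have a1 : ∑ j, (- (K3 j * τ ^ 3)) ≤ ∑ j : Fin k, (lam * A4 (fun t => FF β k (phi zs (δ j t))) τ +
      lam * ε * A4 (fun t : ℂ => ‖σ (t • w j) - y‖ ^ 2) τ -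
        4 * (lam * (FF β k zs + ε * ‖zs - y‖ ^ 2))) :=
      Finset.sum_le_sum fun j _ => (e3 j).trans (e4 j)
    simp only [Finset.sum_add_distrib, Finset.sum_sub_distrib, ← Finset.mul_sum,
      Finset.sum_neg_distrib, ← Finset.sum_mul, Finset.sum_const, Finset.card_univ,
      Fintype.card_fin, nsmul_eq_mul] at a1
    refine a1.trans (le_of_eq ?_)
    ring
  have e6 : ∑ j, A4 (fun t : ℂ => ‖σ (t • w j) - y‖ ^ 2) τ ≤
      k * (4 * ‖zs - y‖ ^ 2 + 16 * τ ^ 2) + (∑ j, K2 j) * τ ^ 3 := by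
    have a1 : ∑ j : Fin k, A4 (fun t : ℂ => ‖σ (t • w j) - y‖ ^ 2) τ ≤
        ∑ j : Fin k, (4 * ‖zs - y‖ ^ 2 + 16 * τ ^ 2 + K2 j * τ ^ 3) :=
      Finset.sum_le_sum fun j _ => e2 j
    simp only [Finset.sum_add_distrib, ← Finset.sum_mul, Finset.sum_const, Finset.card_univ,
      Fintype.card_fin, nsmul_eq_mul] at a1
    linarith
  have e7 := mul_le_mul_of_nonneg_left e1 hlam.le
  have e8 := mul_le_mul_of_nonneg_left e6 (by positivity : 0 ≤ lam * ε)
  have e9 : κ * τ ^ 2 ≤ CC * τ ^ 3 := by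
    rw [hκ, hCC]
    have t2 : 0 ≤ τ ^ 2 := by positivity
    nlinarith
  have e10 : κ ≤ CC * τ := by
    have : κ * τ ^ 2 ≤ (CC * τ) * τ ^ 2 := by
      calc κ * τ ^ 2 ≤ CC * τ ^ 3 := e9
        _ = (CC * τ) * τ ^ 2 := by ring
    exact le_of_mul_le_mul_right this (by positivity)
  have e11 : (CC + 1) * τ < κ := by
    rw [lt_div_iff₀ (by positivity)] at hτκ
    linarith
  nlinarith

end Pool.Agent.U542.CH
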