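import Pool.Agent.U542.CH.Aut
import Pool.Agent.U542.CH.Exp

/-!
# The Poincaré type series and its averages along discs
-/

set_option autoImplicit false
set_option linter.unusedSectionVars false
open Metric Set Filter Topology

namespace Pool.Agent.U542.CH

variable {E : Type*} [NormedAddCommGroup E] [InnerProductSpace ℂ E] [CompleteSpace E]
variable {ι : Type*}

/-- a family of automorphisms of the ball -/
structure AutFam (β β' : ι → E → E) : Prop where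
  d : ∀ i, DifferentiableOn ℂ (β i) (ball (0 : E) 1)
  d' : ∀ i, DifferentiableOn ℂ (β' i) (ball (0 : E) 1)
  m : ∀ i, MapsTo (β i) (ball (0 : E) 1) (ball (0 : E) 1)
  m' : ∀ i, MapsTo (β' i) (ball (0 : E) 1) (ball (0 : E) 1)
  l : ∀ i, ∀ z ∈ ball (0 : E) 1, β' i (β i z) = z
  r : ∀ i, ∀ z ∈ ball (0 : E) 1, β i (β' i z) = z

/-- the series -/
noncomputable def FF (β : ι → E → E) (k : ℕ) (z : E) : ℝ := ∑' i, (1 - ‖β i z‖ ^ 2) ^ k

theorem one_sub_sq_pos {z : E} (hz : ‖z‖ < 1) : 0 < 1 - ‖z‖ ^ 2 := by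
  have := norm_nonneg z
  nlinarith

theorem term_bound {β β' : ι → E → E} (h : AutFam β β') (i : ι) {z : E} (hz : ‖z‖ < 1) :
    0 < 1 - ‖β i z‖ ^ 2 ∧ 1 - ‖β i z‖ ^ 2 ≤ (1 - ‖β i 0‖ ^ 2) / (1 - ‖z‖) ^ 2 := by
  have hβ : ‖β i z‖ < 1 := by
    have := h.m i (show z ∈ ball (0 : E) 1 by simpa using hz)
    simpa using this
  have hb : ‖β' i 0‖ < 1 := by
    have := h.m' i (show (0 : E) ∈ ball (0 : E) 1 by simp)
    simpa using this
  refine ⟨one_sub_sq_pos hβ, ?_⟩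
  have h0 := aut_identity (h.d i) (h.d' i) (h.m i) (h.m' i) (h.l i) (h.r i) (w := 0) (by simp)
  have h1 := aut_identity (h.d i) (h.d' i) (h.m i) (h.m' i) (h.l i) (h.r i) hz
  simp only [inner_zero_right, sub_zero, norm_zero, norm_one, ne_eq, OfNat.ofNat_ne_zero,
    not_false_eq_true, zero_pow, mul_one, one_pow, div_one] at h0
  rw [h1, h0]
  have hbp := one_sub_sq_pos hb
  have hzn := norm_nonneg z
  have hzp : 0 < 1 - ‖z‖ := by linarith
  have hlow : 1 - ‖z‖ ≤ ‖(1 : ℂ) - inner ℂ (β' i 0) z‖ := by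
    have a1 := norm_sub_norm_le (1 : ℂ) (inner ℂ (β' i 0) z)
    rw [norm_one] at a1
    have a2 := norm_inner_le_norm (𝕜 := ℂ) (β' i 0) z
    have a3 : ‖β' i 0‖ * ‖z‖ ≤ 1 * ‖z‖ := mul_le_mul_of_nonneg_right hb.le hzn
    linarith
  have hsq : (1 - ‖z‖) ^ 2 ≤ ‖(1 : ℂ) - inner ℂ (β' i 0) z‖ ^ 2 :=
    pow_le_pow_left₀ hzp.le hlow 2
  have hnum : (1 - ‖β' i 0‖ ^ 2) * (1 - ‖z‖ ^ 2) ≤ (1 - ‖β' i 0‖ ^ 2) := by nlinarith
  have hnum0 : 0 ≤ (1 - ‖β' i 0‖ ^ 2) := hbp.le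
  exact div_le_div₀ hnum0 hnum (by positivity) hsq

theorem pow_bound {β β' : ι → E → E} (h : AutFam β β') (k : ℕ) (i : ι) {z : E} (hz : ‖z‖ < 1) :
    0 < (1 - ‖β i z‖ ^ 2) ^ k ∧
      (1 - ‖β i z‖ ^ 2) ^ k ≤ (1 - ‖β i 0‖ ^ 2) ^ k / ((1 - ‖z‖) ^ 2) ^ k := by
  obtain ⟨h1, h2⟩ := term_bound h i hz
  refine ⟨pow_pos h1 k, ?_⟩
  rw [← div_pow]
  exact pow_le_pow_left₀ h1.le h2 k

theorem FF_summable {β β' : ι → E → E} (h : AutFam β β') {k : ℕ}
    (hs : Summable fun i => (1 - ‖β i 0‖ ^ 2) ^ k) {z : E} (hz : ‖z‖ < 1) :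
    Summable fun i => (1 - ‖β i z‖ ^ 2) ^ k :=
  Summable.of_nonneg_of_le (fun i => (pow_bound h k i hz).1.le) (fun i => (pow_bound h k i hz).2)
    (hs.div_const _)

theorem FF_cont {β β' : ι → E → E} (h : AutFam β β') {k : ℕ}
    (hs : Summable fun i => (1 - ‖β i 0‖ ^ 2) ^ k) :
    ContinuousOn (FF β k) (ball (0 : E) 1) := by
  intro z hz
  have hz' : ‖z‖ < 1 := by simpa using hz
  obtain ⟨R, hR1, hR2⟩ := exists_between hz'
  apply ContinuousAt.continuousWithinAt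
  have hc : ContinuousOn (FF β k) (ball (0 : E) R) := by
    unfold FF
    apply continuousOn_tsum (u := fun i => (1 - ‖β i 0‖ ^ 2) ^ k / ((1 - R) ^ 2) ^ k)
    · intro i
      have h1 : ContinuousOn (β i) (ball (0 : E) R) :=
        (h.d i).continuousOn.mono (ball_subset_ball hR2.le)
      exact ((continuousOn_const.sub (h1.norm.pow 2)).pow k)
    · exact hs.div_const _
    · intro i w hw
      have hw' : ‖w‖ < R := by simpa using hw
      obtain ⟨a1, a2⟩ := pow_bound h k i (hw'.trans hR2)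
      rw [Real.norm_eq_abs, abs_of_pos a1]
      refine a2.trans ?_
      have b1 : 0 ≤ (1 - ‖β i 0‖ ^ 2) ^ k := (pow_bound h k i (z := 0) (by simp)).1.le
      have b2 : 0 < 1 - R := by linarith
      have b3 : (1 - R) ^ 2 ≤ (1 - ‖w‖) ^ 2 := pow_le_pow_left₀ b2.le (by linarith) 2
      exact div_le_div_of_nonneg_left b1 (by positivity) (pow_le_pow_left₀ (by positivity) b3 k)
  exact hc.continuousAt (isOpen_ball.mem_nhds (by simpa using hR1))

/-- the average along orthonormal discs -/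
theorem F_expansion {β β' : ι → E → E} (h : AutFam β β') {k : ℕ}
    (hs : Summable fun i => (1 - ‖β i 0‖ ^ 2) ^ k) (i0 : ι)
    (hi0 : ∀ z ∈ ball (0 : E) 1, β i0 z = z) {zs : E} (hzs : ‖zs‖ < 1)
    (δ : Fin k → ℂ → E) (hδ : ∀ j, AnalyticAt ℂ (δ j) 0) (hδ0 : ∀ j, δ j 0 = 0)
    (hon : Orthonormal ℂ fun j => deriv (δ j) 0) :
    ∃ ρ C : ℝ, 0 < ρ ∧ 0 ≤ C ∧ ∀ t ∈ ball (0 : ℂ) ρ,
      ∑ j, A4 (fun t => FF β k (phi zs (δ j t))) t ≤
        4 * k * FF β k zs - 4 * k ^ 2 * ‖t‖ ^ 2 * (1 - ‖zs‖ ^ 2) ^ (k + 1) + C * ‖t‖ ^ 3 := by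
  classical
  choose ρ C hρ hC hsmall hexp using fun j => expansion (δ j) (hδ j) (hδ0 j) (hon.1 j) k
  -- data of the transported automorphisms
  set b : ι → E := fun i => phi zs (β' i 0) with hb
  have hb0 : ∀ i, ‖β' i 0‖ < 1 := fun i => by
    have := h.m' i (show (0 : E) ∈ ball (0 : E) 1 by simp)
    simpa using this
  have hb1 : ∀ i, ‖b i‖ < 1 := fun i => phi_lt hzs (hb0 i)
  have hmphi : MapsTo (phi zs) (ball (0 : E) 1) (ball (0 : E) 1) := fun z hz => by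
    have hz' : ‖z‖ < 1 := by simpa using hz
    simpa using phi_lt hzs hz'
  have hdphi : DifferentiableOn ℂ (phi zs) (ball (0 : E) 1) :=
    (phi_analytic hzs).differentiableOn
  have hid : ∀ i, ∀ w : E, ‖w‖ < 1 → 1 - ‖β i (phi zs w)‖ ^ 2 =
      (1 - ‖b i‖ ^ 2) * (1 - ‖w‖ ^ 2) / ‖(1 : ℂ) - inner ℂ (b i) w‖ ^ 2 := by
    intro i w hw
    exact aut_identity (β := fun w => β i (phi zs w)) (β' := fun w => phi zs (β' i w))
      ((h.d i).comp hdphi hmphi) (hdphi.comp (h.d' i) (h.m' i))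
      (fun z hz => h.m i (hmphi hz)) (fun z hz => hmphi (h.m' i hz))
      (fun z hz => by
        have hz' : ‖z‖ < 1 := by simpa using hz
        simp only [h.l i _ (hmphi hz), phi_phi hzs hz'])
      (fun z hz => by
        have hz' : ‖β' i z‖ < 1 := by simpa using h.m' i hz
        simp only [phi_phi hzs hz', h.r i z hz]) hw
  set c : ι → ℝ := fun i => (1 - ‖b i‖ ^ 2) ^ k with hc
  have hbp : ∀ i, 0 < 1 - ‖b i‖ ^ 2 := fun i => one_sub_sq_pos (hb1 i)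
  have hc0 : ∀ i, 0 < c i := fun i => pow_pos (hbp i) k
  have hcz : ∀ i, c i = (1 - ‖β i zs‖ ^ 2) ^ k := by
    intro i
    have := hid i 0 (by simp)
    rw [phi_zero] at this
    rw [this]
    simp [hc]
  have hcs : Summable c := by
    have := FF_summable h hs hzs
    exact this.congr fun i => (hcz i).symm
  have hFzs : FF β k zs = ∑' i, c i := by
    unfold FF
    exact tsum_congr fun i => (hcz i).symm
  set p : ι → Fin k → ℂ → ℝ := fun i j t =>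
    (1 - ‖δ j t‖ ^ 2) ^ k / (‖(1 : ℂ) - inner ℂ (b i) (δ j t)‖ ^ 2) ^ k with hp
  have hFp : ∀ j, ∀ t ∈ ball (0 : ℂ) (ρ j), FF β k (phi zs (δ j t)) = ∑' i, c i * p i j t := by
    intro j t ht
    have hlt : ‖δ j t‖ < 1 := by have := hsmall j t ht; linarith
    unfold FF
    apply tsum_congr
    intro i
    rw [hid i _ hlt, div_pow, mul_pow, mul_div_assoc]
  have hps : ∀ j, ∀ t ∈ ball (0 : ℂ) (ρ j), Summable fun i => c i * p i j t := by
    intro j t ht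
    have hlt : ‖δ j t‖ < 1 := by have := hsmall j t ht; linarith
    have hsum := FF_summable h hs (phi_lt hzs hlt)
    refine hsum.congr ?_
    intro i
    rw [hid i _ hlt, div_pow, mul_pow, mul_div_assoc]
  -- minimal radius
  obtain ⟨ρm, hρm, hρle⟩ : ∃ ρm : ℝ, 0 < ρm ∧ ∀ j, ρm ≤ ρ j := by
    rcases isEmpty_or_nonempty (Fin k) with he | hne
    · exact ⟨1, one_pos, fun j => (he.false j).elim⟩
    · refine ⟨Finset.univ.inf' Finset.univ_nonempty ρ, ?_, fun j => Finset.inf'_le _ (Finset.mem_univ j)⟩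
      rw [Finset.lt_inf'_iff]
      exact fun j _ => hρ j
  refine ⟨ρm, (∑ j, C j) * ∑' i, c i, hρm,
    mul_nonneg (Finset.sum_nonneg fun j _ => hC j) (tsum_nonneg fun i => (hc0 i).le), ?_⟩
  intro t ht
  have ht' : ‖t‖ < ρm := by simpa using ht
  have hmem : ∀ s : ℂ, ‖s‖ = ‖t‖ → ∀ j, s ∈ ball (0 : ℂ) (ρ j) := by
    intro s hs j
    have := hρle j
    rw [mem_ball_zero_iff, hs]
    linarith
  have m1 := hmem t rfl
  have m2 := hmem (-t) (norm_neg t)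
  have m3 := hmem (Complex.I * t) (by simp)
  have m4 := hmem (-(Complex.I * t)) (by simp)
  -- the average of the series
  have hA : ∀ j, A4 (fun t => FF β k (phi zs (δ j t))) t = ∑' i, c i * A4 (p i j) t ∧
      Summable fun i => c i * A4 (p i j) t := by
    intro j
    have s1 := hps j t (m1 j)
    have s2 := hps j (-t) (m2 j)
    have s3 := hps j (Complex.I * t) (m3 j)
    have s4 := hps j (-(Complex.I * t)) (m4 j)
    have e : (fun i => c i * A4 (p i j) t) = fun i => (c i * p i j t + c i * p i j (-t)) +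
        (c i * p i j (Complex.I * t) + c i * p i j (-(Complex.I * t))) := by
      funext i
      unfold A4
      ring
    constructor
    · have e1 : A4 (fun t => FF β k (phi zs (δ j t))) t =
          (∑' i, c i * p i j t + ∑' i, c i * p i j (-t)) +
          (∑' i, c i * p i j (Complex.I * t) + ∑' i, c i * p i j (-(Complex.I * t))) := by
        unfold A4
        beta_reduce
        rw [hFp j _ (m1 j), hFp j _ (m2 j), hFp j _ (m3 j), hFp j _ (m4 j)]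
      rw [e1, e, (s1.add s2).tsum_add (s3.add s4), s1.tsum_add s2, s3.tsum_add s4]
    · rw [e]
      exact (s1.add s2).add (s3.add s4)
  have hsumA : ∑ j, A4 (fun t => FF β k (phi zs (δ j t))) t = ∑' i, ∑ j, c i * A4 (p i j) t := by
    rw [Summable.tsum_finsetSum fun j _ => (hA j).2]
    exact Finset.sum_congr rfl fun j _ => (hA j).1
  have hsumS : Summable fun i => ∑ j, c i * A4 (p i j) t := summable_sum fun j _ => (hA j).2
  -- termwise bound
  have hterm : ∀ i, ∑ j, c i * A4 (p i j) t ≤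
      c i * (4 * k + (∑ j, C j) * ‖t‖ ^ 3) - 4 * k ^ 2 * ‖t‖ ^ 2 * (c i * (1 - ‖b i‖ ^ 2)) := by
    intro i
    have hbes : ∑ j, ‖inner ℂ (b i) (deriv (δ j) 0)‖ ^ 2 ≤ ‖b i‖ ^ 2 := by
      have := hon.sum_inner_products_le (b i) (s := Finset.univ)
      refine le_trans (le_of_eq ?_) this
      apply Finset.sum_congr rfl
      intro j _
      rw [norm_inner_symm]
    have hj : ∀ j, A4 (p i j) t ≤
        4 + 4 * ‖t‖ ^ 2 * (k ^ 2 * ‖inner ℂ (b i) (deriv (δ j) 0)‖ ^ 2 - k) + C j * ‖t‖ ^ 3 := by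
      intro j
      have := (abs_le.1 (hexp j (b i) (hb1 i).le t (m1 j))).2
      have e : A4 (p i j) t = A4 (fun t => (1 - ‖δ j t‖ ^ 2) ^ k /
        (‖(1 : ℂ) - inner ℂ (b i) (δ j t)‖ ^ 2) ^ k) t := rfl
      rw [e]
      linarith
    have h1 : ∑ j, A4 (p i j) t ≤ ∑ j : Fin k, (4 + 4 * ‖t‖ ^ 2 *
        (k ^ 2 * ‖inner ℂ (b i) (deriv (δ j) 0)‖ ^ 2 - k) + C j * ‖t‖ ^ 3) :=
      Finset.sum_le_sum fun j _ => hj j
    have h2 : ∑ j : Fin k, (4 + 4 * ‖t‖ ^ 2 *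
        (k ^ 2 * ‖inner ℂ (b i) (deriv (δ j) 0)‖ ^ 2 - k) + C j * ‖t‖ ^ 3) =
        4 * k + 4 * ‖t‖ ^ 2 * (k ^ 2 * (∑ j, ‖inner ℂ (b i) (deriv (δ j) 0)‖ ^ 2) - k ^ 2) +
          (∑ j, C j) * ‖t‖ ^ 3 := by
      simp only [Finset.sum_add_distrib, ← Finset.mul_sum, ← Finset.sum_mul,
        Finset.sum_sub_distrib, Finset.sum_const, Finset.card_univ, Fintype.card_fin, nsmul_eq_mul]
      ring
    rw [h2] at h1
    have h3 : 4 * ‖t‖ ^ 2 * (k ^ 2 * (∑ j, ‖inner ℂ (b i) (deriv (δ j) 0)‖ ^ 2) - k ^ 2) ≤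
        4 * ‖t‖ ^ 2 * (k ^ 2 * ‖b i‖ ^ 2 - k ^ 2) := by
      apply mul_le_mul_of_nonneg_left _ (by positivity)
      have : (k : ℝ) ^ 2 * (∑ j, ‖inner ℂ (b i) (deriv (δ j) 0)‖ ^ 2) ≤ k ^ 2 * ‖b i‖ ^ 2 :=
        mul_le_mul_of_nonneg_left hbes (by positivity)
      linarith
    have h4 : ∑ j, A4 (p i j) t ≤ 4 * k + 4 * ‖t‖ ^ 2 * (k ^ 2 * ‖b i‖ ^ 2 - k ^ 2) +
        (∑ j, C j) * ‖t‖ ^ 3 := by linarith
    rw [← Finset.mul_sum]
    calc c i * ∑ j, A4 (p i j) t ≤ c i * (4 * k + 4 * ‖t‖ ^ 2 * (k ^ 2 * ‖b i‖ ^ 2 - k ^ 2) +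
          (∑ j, C j) * ‖t‖ ^ 3) := mul_le_mul_of_nonneg_left h4 (hc0 i).le
      _ = _ := by ring
  have hs1 : Summable fun i => c i * (1 - ‖b i‖ ^ 2) := by
    refine Summable.of_nonneg_of_le (fun i => mul_nonneg (hc0 i).le (hbp i).le) (fun i => ?_) hcs
    have : c i * (1 - ‖b i‖ ^ 2) ≤ c i * 1 :=
      mul_le_mul_of_nonneg_left (by have := norm_nonneg (b i); nlinarith) (hc0 i).le
    linarith
  have hlow : (1 - ‖zs‖ ^ 2) ^ (k + 1) ≤ ∑' i, c i * (1 - ‖b i‖ ^ 2) := by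
    have h1 := hs1.le_tsum i0 (fun j _ => mul_nonneg (hc0 j).le (hbp j).le)
    refine le_trans (le_of_eq ?_) h1
    have h2 : β' i0 0 = 0 := by
      have := h.l i0 0 (by simp)
      rwa [hi0 0 (by simp)] at this
    have h3 : b i0 = zs := by simp only [hb, h2, phi_zero]
    simp only [hc, h3]
    ring
  rw [hsumA]
  calc ∑' i, ∑ j, c i * A4 (p i j) t
      ≤ ∑' i, (c i * (4 * k + (∑ j, C j) * ‖t‖ ^ 3) -
          4 * k ^ 2 * ‖t‖ ^ 2 * (c i * (1 - ‖b i‖ ^ 2))) :=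
        hsumS.tsum_le_tsum hterm ((hcs.mul_right _).sub (hs1.mul_left _))
    _ = (∑' i, c i) * (4 * k + (∑ j, C j) * ‖t‖ ^ 3) -
          4 * k ^ 2 * ‖t‖ ^ 2 * ∑' i, c i * (1 - ‖b i‖ ^ 2) := by
        rw [(hcs.mul_right _).tsum_sub (hs1.mul_left _), tsum_mul_right, tsum_mul_left]
    _ ≤ (∑' i, c i) * (4 * k + (∑ j, C j) * ‖t‖ ^ 3) -
          4 * k ^ 2 * ‖t‖ ^ 2 * (1 - ‖zs‖ ^ 2) ^ (k + 1) := by
        have := mul_le_mul_of_nonneg_left hlow (by positivity : 0 ≤ 4 * (k : ℝ) ^ 2 * ‖t‖ ^ 2)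
        linarith
    _ = _ := by rw [hFzs]; ring

end Pool.Agent.U542.CH
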